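import Mathlib
import Pool.Agent.Y215.SK.FinB

set_option autoImplicit false
set_option linter.unusedSectionVars false
set_option linter.unusedSimpArgs false

/-! # Polynomials over sequences of algebraic numbers and over germs -/

namespace Pool.Agent.Helper201_HF

open Finset NumberField Height Module Filter
open MvPolynomial hiding psum
open Pool.Agent.Helper259.AbsHt Pool.Agent.H533R3.SL Pool.Agent.Y215.SP Pool.Agent.Y215.SK

variable {n N r : ℕ}

/-- the germ as a ring homomorphism -/
noncomputable def gmH : (ℕ → Qbar) →+* GQ where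
  toFun := gm
  map_one' := rfl
  map_mul' _ _ := rfl
  map_zero' := rfl
  map_add' _ _ := rfl

/-- the value at `t` as a ring homomorphism -/
noncomputable def evH (t : ℕ) : (ℕ → Qbar) →+* Qbar := Pi.evalRingHom (fun _ => Qbar) t

theorem map_gm_zero (f : Polynomial (ℕ → Qbar)) (h : f.map gmH = 0) :
    ∀ᶠ t in (UU : Filter ℕ), f.map (evH t) = 0 := by
  have h1 : ∀ w : Fin (f.natDegree + 1), ∀ᶠ t in (UU : Filter ℕ), f.coeff w t = 0 := by
    intro w
    have h2 := congrArg (fun p => Polynomial.coeff p (w : ℕ)) h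
    simp only [Polynomial.coeff_map, Polynomial.coeff_zero] at h2
    exact gm_eq_zero.1 h2
  rw [← Filter.eventually_all] at h1
  filter_upwards [h1] with t ht
  ext w
  rw [Polynomial.coeff_map, Polynomial.coeff_zero]
  by_cases hw : w < f.natDegree + 1
  · exact ht ⟨w, hw⟩
  · rw [Polynomial.coeff_eq_zero_of_natDegree_lt (by omega)]
    rfl

theorem map_gm_ne (f : Polynomial (ℕ → Qbar)) (h : f.map gmH ≠ 0) :
    ∀ᶠ t in (UU : Filter ℕ), f.map (evH t) ≠ 0 := by
  obtain ⟨w, hw⟩ : ∃ w, (f.map gmH).coeff w ≠ 0 := by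
    by_contra hcon
    push Not at hcon
    exact h (Polynomial.ext fun w => by rw [hcon, Polynomial.coeff_zero])
  rw [Polynomial.coeff_map] at hw
  have h1 : ∀ᶠ t in (UU : Filter ℕ), f.coeff w t ≠ 0 := gm_ne_zero.1 hw
  filter_upwards [h1] with t ht h0
  apply ht
  have h2 := congrArg (fun p => Polynomial.coeff p w) h0
  simp only [Polynomial.coeff_map, Polynomial.coeff_zero] at h2
  exact h2

theorem map_cur {R S : Type} [CommRing R] [CommRing S] (φ : R →+* S)
    (c : Fin r → Fin (n + 1) → R) (l : Fin r → ℕ) (a : Fin (n + 1)) :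
    (cur c l a).map φ = cur (fun j a => φ (c j a)) l a := by
  unfold cur
  rw [Polynomial.map_sum]
  refine Finset.sum_congr rfl fun j _ => ?_
  rw [Polynomial.map_mul, Polynomial.map_C, Polynomial.map_pow, Polynomial.map_X]

/-- the value of a form -/
theorem aeval_hom_eq {k R : Type} [Field k] [CommRing R] [Algebra k R] {e : ℕ}
    (F : MvPolynomial (Fin (n + 1)) k) (hF : F.IsHomogeneous e) (x : Fin (n + 1) → R) :
    aeval x F = ∑ m ∈ (Finset.univ : Finset (Fin (n + 1))).finsuppAntidiag e,
      algebraMap k R (coeff m F) * ∏ a, x a ^ m a := by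
  rw [MvPolynomial.aeval_def, MvPolynomial.eval₂_eq']
  refine Finset.sum_subset ?_ ?_
  · intro m hm
    rw [Finset.mem_finsuppAntidiag]
    refine ⟨?_, Finset.subset_univ _⟩
    have := hF (MvPolynomial.mem_support_iff.1 hm)
    rw [← this, Finsupp.weight_apply, Finsupp.sum_fintype _ _ (by simp)]
    simp
  · intro m _ hm
    rw [MvPolynomial.notMem_support_iff.1 hm, map_zero, zero_mul]

/-- the form with given coefficients -/
noncomputable def formOf {k : Type} [Field k] (e : ℕ) (cf : (Fin (n + 1) →₀ ℕ) → k) :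
    MvPolynomial (Fin (n + 1)) k :=
  ∑ m ∈ (Finset.univ : Finset (Fin (n + 1))).finsuppAntidiag e, monomial m (cf m)

theorem formOf_hom {k : Type} [Field k] (e : ℕ) (cf : (Fin (n + 1) →₀ ℕ) → k) :
    (formOf (n := n) e cf).IsHomogeneous e := by
  refine MvPolynomial.IsHomogeneous.sum _ _ _ fun m hm => ?_
  refine MvPolynomial.isHomogeneous_monomial _ ?_
  rw [Finset.mem_finsuppAntidiag] at hm
  rw [← hm.1, Finsupp.degree_eq_sum]

theorem formOf_aeval {k R : Type} [Field k] [CommRing R] [Algebra k R] (e : ℕ)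
    (cf : (Fin (n + 1) →₀ ℕ) → k) (x : Fin (n + 1) → R) :
    aeval x (formOf e cf) = ∑ m ∈ (Finset.univ : Finset (Fin (n + 1))).finsuppAntidiag e,
      algebraMap k R (cf m) * ∏ a, x a ^ m a := by
  unfold formOf
  rw [map_sum]
  refine Finset.sum_congr rfl fun m _ => ?_
  rw [MvPolynomial.aeval_monomial, Finsupp.prod_fintype _ _ (fun _ => pow_zero _)]

end Pool.Agent.Helper201_HF
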