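import Mathlib
import Pool.Agent.Helper201_HF.Seq

set_option autoImplicit false
set_option linter.unusedSectionVars false
set_option linter.unusedSimpArgs false

/-! # Sums of elements of a group of finite rank on moving varieties -/

namespace Pool.Agent.Helper201_HF

open Finset NumberField Height Module Filter
open MvPolynomial hiding psum
open Pool.Agent.Helper259.AbsHt Pool.Agent.H533R3.SL Pool.Agent.Y215.SP Pool.Agent.Y215.SK

variable {n N r : ℕ}

/-- the height of a system of forms: the sum of the heights of the vectors of their coefficients -/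
noncomputable def hP (P : Fin N → MvPolynomial (Fin (n + 1)) Qbar) : ℝ :=
  ∑ i, absLogHeight (fun m : (P i).support => coeff (m : Fin (n + 1) →₀ ℕ) (P i))

/-- no nonconstant rational curve `T ↦ ∑ T ^ (l j) c j` with `r` terms in the zero set of the `P i`
passes through `x` (at `T = 1`) -/
def NoCurve (r : ℕ) (P : Fin N → MvPolynomial (Fin (n + 1)) Qbar) (x : Fin (n + 1) → Qbar) :
    Prop :=
  ∀ (c : Fin r → Fin (n + 1) → Qbar) (l : Fin r → ℕ), (∀ a, ∑ j, c j a = x a) →
    (∀ i, aeval (fun a => ∑ j, Polynomial.C (c j a) * Polynomial.X ^ l j) (P i) = 0) →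
    ∀ a b, (∑ j, Polynomial.C (c j a) * Polynomial.X ^ l j) * Polynomial.C (x b) =
      (∑ j, Polynomial.C (c j b) * Polynomial.X ^ l j) * Polynomial.C (x a)

theorem hP_nonneg (P : Fin N → MvPolynomial (Fin (n + 1)) Qbar) : 0 ≤ hP P :=
  Finset.sum_nonneg fun _ _ => absLogHeight_nonneg _

/-- normalisation of the equations -/
theorem norm_P (P : Fin N → MvPolynomial (Fin (n + 1)) Qbar) :
    ∃ d : Fin N → Qbar, (∀ i, d i ≠ 0) ∧ ∀ i m, h1 (d i * coeff m (P i)) ≤ hP P := by
  classical
  have h : ∀ i, ∃ d : Qbar, d ≠ 0 ∧ ∀ m, h1 (d * coeff m (P i)) ≤ hP P := by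
    intro i
    by_cases h0 : P i = 0
    · refine ⟨1, one_ne_zero, fun m => ?_⟩
      rw [h0, coeff_zero, mul_zero, h1_zero]
      exact hP_nonneg P
    · obtain ⟨m0, hm0⟩ := MvPolynomial.ne_zero_iff.1 h0
      refine ⟨(coeff m0 (P i))⁻¹, inv_ne_zero hm0, fun m => ?_⟩
      by_cases hm : coeff m (P i) = 0
      · rw [hm, mul_zero, h1_zero]
        exact hP_nonneg P
      · have h2 := h1_ratio_le
          (fun m : (P i).support => coeff (m : Fin (n + 1) →₀ ℕ) (P i))
          ⟨m, mem_support_iff.2 hm⟩ ⟨m0, mem_support_iff.2 hm0⟩ hm0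
        rw [← div_eq_inv_mul]
        refine h2.trans ?_
        exact Finset.single_le_sum
          (f := fun i => absLogHeight
            (fun m : (P i).support => coeff (m : Fin (n + 1) →₀ ℕ) (P i)))
          (fun i _ => absLogHeight_nonneg _) (Finset.mem_univ i)
  choose d h1 h2 using h
  exact ⟨d, h1, h2⟩

theorem cur_smul {R : Type} [CommRing R] (c : Fin r → Fin (n + 1) → R) (l : Fin r → ℕ) (z : R)
    (a : Fin (n + 1)) : cur (fun j a => z * c j a) l a = Polynomial.C z * cur c l a := by
  unfold cur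
  rw [Finset.mul_sum]
  refine Finset.sum_congr rfl fun j _ => ?_
  rw [Polynomial.C_mul, mul_assoc]

theorem noCurve_smul (P : Fin N → MvPolynomial (Fin (n + 1)) Qbar) (e : Fin N → ℕ)
    (hP : ∀ i, (P i).IsHomogeneous (e i)) (x : Fin (n + 1) → Qbar) (h : NoCurve r P x)
    (d : Fin N → Qbar) (hd : ∀ i, d i ≠ 0) (z : Qbar) (hz : z ≠ 0) :
    NoCurve r (fun i => C (d i) * P i) (fun a => z * x a) := by
  intro c l hc hcur a b
  have hcur' : ∀ i, aeval (cur c l) (P i) = 0 := by
    intro i
    have h1 : (aeval (cur c l)) (C (d i) * P i) = 0 := hcur i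
    rw [map_mul, MvPolynomial.aeval_C] at h1
    refine (mul_eq_zero.1 h1).resolve_left ?_
    show Polynomial.C (d i) ≠ 0
    exact Polynomial.C_ne_zero.2 (hd i)
  have h1 := h (fun j a => z⁻¹ * c j a) l (fun a => by
    rw [← Finset.mul_sum, hc, inv_mul_cancel_left₀ hz]) (fun i => by
    show aeval (fun a => cur (fun j a => z⁻¹ * c j a) l a) (P i) = 0
    simp_rw [cur_smul]
    rw [aeval_hom_smul _ (hP i)]
    have h2 : aeval (fun a => cur c l a) (P i) = 0 := hcur' i
    rw [h2, mul_zero]) a b
  have h2 : cur (fun j a => z⁻¹ * c j a) l a * Polynomial.C (x b) =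
      cur (fun j a => z⁻¹ * c j a) l b * Polynomial.C (x a) := h1
  rw [cur_smul, cur_smul] at h2
  show cur c l a * Polynomial.C (z * x b) = cur c l b * Polynomial.C (z * x a)
  have h3 : Polynomial.C (z⁻¹ : Qbar) ≠ 0 := Polynomial.C_ne_zero.2 (inv_ne_zero hz)
  apply mul_left_cancel₀ h3
  rw [Polynomial.C_mul, Polynomial.C_mul]
  linear_combination (Polynomial.C z) * h2

/-- **Bounded multipliers, uniformly in the variety.** -/
theorem mult_boundM (e : Fin N → ℕ) (Γ : Subgroup Qbarˣ) (hΓ : Γ.FG) :
    ∃ C : ℝ, ∀ (P : Fin N → MvPolynomial (Fin (n + 1)) Qbar),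
      (∀ i, (P i).IsHomogeneous (e i)) →
      ∀ (u : Fin r → Qbarˣ) (V : Fin r → Fin (n + 1) → Qbar),
      (∀ j, u j ∈ DivHull Γ) → psum Finset.univ u V ≠ 0 →
      (∀ i, aeval (psum Finset.univ u V) (P i) = 0) → NoCurve r P (psum Finset.univ u V) →
      ∃ J : Finset (Fin r), Good J u V ∧
        absLogHeight (fun j : J => (u j : Qbar)) ≤ C * (1 + hV V + hP P) := by
  classical
  by_contra hcon
  push Not at hcon
  have hcon2 : ∀ t : ℕ, ∃ (P : Fin N → MvPolynomial (Fin (n + 1)) Qbar) (u : Fin r → Qbarˣ)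
      (V : Fin r → Fin (n + 1) → Qbar) (ℓ : ℝ),
      (∀ i, (P i).IsHomogeneous (e i)) ∧ (∀ j, u j ∈ DivHull Γ) ∧
      psum Finset.univ u V ≠ 0 ∧ (∀ i, aeval (psum Finset.univ u V) (P i) = 0) ∧
      NoCurve r P (psum Finset.univ u V) ∧
      (∀ J : Finset (Fin r), Good J u V → ℓ ≤ absLogHeight (fun j : J => (u j : Qbar))) ∧
      (∀ j a, (t + 1 : ℝ) * h1 (V j a) ≤ ℓ) ∧ (∀ i m, (t + 1 : ℝ) * h1 (coeff m (P i)) ≤ ℓ) ∧
      (t : ℝ) + 1 ≤ ℓ := by
    intro t
    obtain ⟨P, hPh, u, V, hu, h2, h3, h4, h5⟩ := hcon (t + 1)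
    have hp0 : ∃ p : Fin r × Fin (n + 1), V p.1 p.2 ≠ 0 := by
      by_contra h
      push Not at h
      apply h2
      funext a
      refine Finset.sum_eq_zero fun j _ => ?_
      rw [h (j, a), mul_zero]
    obtain ⟨p0, hp0⟩ := hp0
    obtain ⟨c, hc⟩ : ∃ c : Qbar, c = (V p0.1 p0.2)⁻¹ := ⟨_, rfl⟩
    have hc0 : c ≠ 0 := by rw [hc]; exact inv_ne_zero hp0
    have hx : psum Finset.univ u (fun j a => c * V j a) =
        fun a => c * psum Finset.univ u V a := by
      funext a
      unfold psum
      rw [Finset.mul_sum]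
      exact Finset.sum_congr rfl fun j _ => by ring
    have hV0 : 0 ≤ hV V := absLogHeight_nonneg _
    have hP0 : 0 ≤ hP P := hP_nonneg P
    obtain ⟨d, hd0, hd⟩ := norm_P P
    -- the minimum
    have huniv : Good Finset.univ u V :=
      ⟨fun a b => mul_comm _ _, Function.ne_iff.1 h2⟩
    obtain ⟨J0, hJ0, hmin⟩ := Finset.exists_min_image
      (Finset.univ.filter (fun J : Finset (Fin r) => Good J u V))
      (fun J => absLogHeight (fun j : J => (u j : Qbar))) ⟨_, by simpa using huniv⟩
    rw [Finset.mem_filter] at hJ0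
    have h6 := h5 J0 hJ0.2
    have h8 : (0 : ℝ) < t + 1 := by positivity
    refine ⟨fun i => C (d i) * P i, u, fun j a => c * V j a,
      absLogHeight (fun j : J0 => (u j : Qbar)), fun i => ?_, hu, ?_, ?_, ?_, ?_, ?_, ?_, ?_⟩
    · have := (MvPolynomial.isHomogeneous_C (Fin (n + 1)) (d i)).mul (hPh i)
      rwa [zero_add] at this
    · rw [hx]
      intro h
      apply h2
      funext a
      have := congrFun h a
      exact (mul_eq_zero.1 this).resolve_left hc0
    · intro i
      rw [map_mul, hx, aeval_hom_smul _ (hPh i), h3, mul_zero, mul_zero]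
    · rw [hx]
      exact noCurve_smul P e hPh _ h4 d hd0 c hc0
    · intro J hJ
      exact hmin J (by
        rw [Finset.mem_filter]
        exact ⟨Finset.mem_univ _, good_smul J u V c hJ⟩)
    · intro j a
      have h6' : Pool.Agent.Y215.SK.h1 (c * V j a) ≤ hV V := by
        rw [hc, ← div_eq_inv_mul]
        exact h1_ratio_le (fun p : Fin r × Fin (n + 1) => V p.1 p.2) (j, a) p0 hp0
      have h7 : (t + 1 : ℝ) * Pool.Agent.Y215.SK.h1 (c * V j a) ≤ (t + 1) * hV V :=
        mul_le_mul_of_nonneg_left h6' (by positivity)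
      nlinarith
    · intro i m
      rw [MvPolynomial.coeff_C_mul]
      have h7 : (t + 1 : ℝ) * Pool.Agent.Y215.SK.h1 (d i * coeff m (P i)) ≤ (t + 1) * hP P :=
        mul_le_mul_of_nonneg_left (hd i m) (by positivity)
      nlinarith
    · nlinarith
  choose P u V L hPh hu hx0 hxP hnc hmin hVh hPc hxh using hcon2
  have hL : Tendsto L atTop atTop := by
    refine tendsto_atTop_mono (fun t => le_trans (by linarith) (hxh t)) tendsto_natCast_atTop_atTop
  obtain ⟨ρ, D, C0, hD⟩ := exists_grp Γ hΓ
  choose s q hs0 hsh hus using fun (t : ℕ) (j : Fin r) => hD (u t j) (hu t j)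
  -- negligible germs
  have hneg : ∀ a : ℕ → Qbar, (∀ t : ℕ, (t + 1 : ℝ) * h1 (a t) ≤ L t) → gm a ∈ KK L hL := by
    intro a ha
    rw [mem_KK]
    intro ε hε
    filter_upwards [ev_of_atTop (Filter.eventually_ge_atTop ⌈1 / ε⌉₊)] with t ht
    have h2 := ha t
    have h3 : 1 / ε ≤ t := (Nat.le_ceil _).trans (by exact_mod_cast ht)
    rw [div_le_iff₀ hε] at h3
    have h4 := h1_nonneg (a t)
    have h5 : 1 ≤ ε * (t + 1) := by nlinarith
    calc h1 (a t) = 1 * h1 (a t) := (one_mul _).symm
      _ ≤ ε * (t + 1) * h1 (a t) := mul_le_mul_of_nonneg_right h5 h4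
      _ = ε * ((t + 1) * h1 (a t)) := by ring
      _ ≤ ε * L t := mul_le_mul_of_nonneg_left h2 hε.le
  -- the moving equations
  let cf : ∀ i : Fin N, (Fin (n + 1) →₀ ℕ) → KK L hL := fun i m =>
    ⟨gm (fun t => coeff m (P t i)), hneg _ fun t => hPc t i m⟩
  let PS : Fin N → MvPolynomial (Fin (n + 1)) (KK L hL) := fun i => formOf (e i) (cf i)
  have hcfG : ∀ i m, algebraMap (KK L hL) GQ (cf i m) = gm (fun t => coeff m (P t i)) :=
    fun i m => rfl
  -- germs
  have hUg : ∀ j, gm (fun t => s t j) * yy D (fun t => q t j) = gm (fun t => (u t j : Qbar)) := by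
    intro j
    unfold yy
    rw [gm_mul]
    congr 1
    funext t
    exact (hus t j).symm
  have hJg : ∀ (J : Finset (Fin r)) a,
      ∑ j ∈ J, (gm (fun t => s t j) * yy D (fun t => q t j)) * gm (fun t => V t j a) =
      gm (fun t => psum J (u t) (V t) a) := by
    intro J a
    simp_rw [hUg, gm_mul]
    rw [gm_sum]
    rfl
  obtain ⟨J, j1, hrat, hprop, a1, ha1⟩ := point_block (k := KK L hL) PS
    (fun i => ⟨e i, formOf_hom _ _⟩) 1 D L hL
    (fun a => a.2) q (fun j => gm (fun t => s t j))
    (fun j => mem_KK_of_le _ C0 (Filter.Eventually.of_forall fun t => hsh t j))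
    (fun j => gm_ne_zero.2 (Filter.Eventually.of_forall fun t => hs0 t j))
    (fun j a => gm (fun t => V t j a))
    (fun j a => hneg _ fun t => hVh t j a)
    (by
      intro l hz hne
      exfalso
      have hcG : (fun (j : Fin r) (a : Fin (n + 1)) =>
          (gm (fun t => s t j) * yy D (fun n => q n j)) * gm (fun t => V t j a)) =
          fun j a => gmH (fun t => (u t j : Qbar) * V t j a) := by
        funext j a
        rw [hUg, gm_mul]
        rfl
      simp only [hcG] at hz
      have hcS : ∀ a, (∑ j, (gm (fun t => s t j) * yy D (fun n => q n j)) *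
          gm (fun t => V t j a)) = gmH (fun t => psum Finset.univ (u t) (V t) a) := fun a =>
        hJg Finset.univ a
      obtain ⟨a, b, hab⟩ := hne
      rw [hcS, hcS] at hab
      simp only [hcG] at hab
      obtain ⟨cS, hcSdef⟩ : ∃ cS : Fin r → Fin (n + 1) → ℕ → Qbar,
        cS = fun j a t => (u t j : Qbar) * V t j a := ⟨_, rfl⟩
      have hG : ∀ a, cur (fun j a => gmH (fun t => (u t j : Qbar) * V t j a)) l a =
          (cur cS l a).map gmH := by
        intro a
        rw [map_cur, hcSdef]
      have hE : ∀ t a, cur (fun j a => (u t j : Qbar) * V t j a) l a =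
          (cur cS l a).map (evH t) := by
        intro t a
        rw [map_cur, hcSdef]
        rfl
      -- the equations
      have hz2 : ∀ᶠ t in (UU : Filter ℕ), ∀ i,
          aeval (cur (fun j a => (u t j : Qbar) * V t j a) l) (P t i) = 0 := by
        rw [Filter.eventually_all]
        intro i
        have h1 := map_gm_zero (∑ m ∈ (Finset.univ : Finset (Fin (n + 1))).finsuppAntidiag (e i),
          Polynomial.C (fun t => coeff m (P t i)) * ∏ a, cur cS l a ^ m a) (by
            rw [Polynomial.map_sum, ← hz i, formOf_aeval]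
            refine Finset.sum_congr rfl fun m _ => ?_
            rw [Polynomial.map_mul, Polynomial.map_C, Polynomial.map_prod]
            congr 1
            refine Finset.prod_congr rfl fun a _ => ?_
            rw [Polynomial.map_pow, hG])
        filter_upwards [h1] with t ht
        rw [aeval_hom_eq _ (hPh t i), ← ht, Polynomial.map_sum]
        refine Finset.sum_congr rfl fun m _ => ?_
        rw [Polynomial.map_mul, Polynomial.map_C, Polynomial.map_prod]
        congr 1
        refine Finset.prod_congr rfl fun a _ => ?_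
        rw [Polynomial.map_pow, hE]
      have hne2 := map_gm_ne (cur cS l a * Polynomial.C (fun t => psum Finset.univ (u t) (V t) b) -
        cur cS l b * Polynomial.C (fun t => psum Finset.univ (u t) (V t) a)) (by
          rw [Polynomial.map_sub, Polynomial.map_mul, Polynomial.map_mul, Polynomial.map_C,
            Polynomial.map_C, ← hG, ← hG]
          exact sub_ne_zero.2 hab)
      obtain ⟨t, ht1, ht2⟩ := (hz2.and hne2).exists
      apply ht2
      rw [Polynomial.map_sub, Polynomial.map_mul, Polynomial.map_mul, Polynomial.map_C,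
        Polynomial.map_C, ← hE, ← hE, sub_eq_zero]
      exact hnc t (fun j a => (u t j : Qbar) * V t j a) l (fun a => rfl) ht1 a b)
    (by
      intro i
      simp_rw [hJg]
      rw [formOf_aeval]
      have h1 : ∀ m : Fin (n + 1) →₀ ℕ, algebraMap (KK L hL) GQ (cf i m) *
          ∏ a, gm (fun t => psum Finset.univ (u t) (V t) a) ^ m a =
          gm (fun t => coeff m (P t i) * ∏ a, psum Finset.univ (u t) (V t) a ^ m a) := by
        intro m
        rw [hcfG]
        simp_rw [gm_pow]
        rw [gm_prod, gm_mul]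
      simp_rw [h1]
      rw [gm_sum, gm_eq_zero]
      refine Filter.Eventually.of_forall fun t => ?_
      have h2 := hxP t i
      rw [aeval_hom_eq _ (hPh t i)] at h2
      exact h2)
    (by
      rw [map_one]
      exact one_ne_zero)
    (by
      simp_rw [hJg]
      intro h
      have h2 : ∀ᶠ t in (UU : Filter ℕ), ∀ a, psum Finset.univ (u t) (V t) a = 0 := by
        rw [Filter.eventually_all]
        exact fun a => gm_eq_zero.1 (congrFun h a)
      obtain ⟨t, ht⟩ := h2.exists
      exact hx0 t (funext ht))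
  simp_rw [hJg] at hprop ha1
  simp_rw [hUg] at hrat
  rw [gm_ne_zero] at ha1
  have hgood : ∀ᶠ t in (UU : Filter ℕ), Good J (u t) (V t) := by
    have h2 : ∀ᶠ t in (UU : Filter ℕ), ∀ a b, psum J (u t) (V t) a *
        psum Finset.univ (u t) (V t) b = psum J (u t) (V t) b * psum Finset.univ (u t) (V t) a := by
      rw [Filter.eventually_all]
      intro a
      rw [Filter.eventually_all]
      intro b
      exact gm_eq.1 (hprop a b)
    filter_upwards [h2, ha1] with t h3 h4
    exact ⟨h3, a1, h4⟩
  have hev : ∀ᶠ t in (UU : Filter ℕ), ∀ j : J, h1 ((u t j : Qbar) / (u t j1 : Qbar)) ≤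
      1 / (2 * (r + 1)) * L t := by
    rw [Filter.eventually_all]
    intro j
    have h2 := hrat j j.2
    rw [gm_div, mem_KK] at h2
    exact h2 _ (by positivity)
  obtain ⟨t, ht1, ht2⟩ := (hgood.and hev).exists
  have h2 : L t ≤ r * (1 / (2 * (r + 1)) * L t) := by
    refine (hmin t J ht1).trans ?_
    have h3 := absLogHeight_smul (fun j : J => (u t j : Qbar)) (inv_ne_zero (u t j1).ne_zero)
    rw [← h3]
    refine (height_le_sum _).trans ?_
    have h4 : ∀ j ∈ (Finset.univ : Finset J),
        h1 ((((u t j1 : Qbar))⁻¹ • fun j : J => (u t j : Qbar)) j) ≤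
        1 / (2 * (r + 1)) * L t := by
      intro j _
      rw [Pi.smul_apply, smul_eq_mul, ← div_eq_inv_mul]
      exact ht2 j
    refine (Finset.sum_le_sum h4).trans ?_
    rw [Finset.sum_const, Finset.card_univ, Fintype.card_coe, nsmul_eq_mul]
    have h5 : (J.card : ℝ) ≤ r := by
      have := Finset.card_le_univ J
      rw [Fintype.card_fin] at this
      exact_mod_cast this
    have h6 : 0 ≤ L t := le_trans (by positivity) (hxh t)
    exact mul_le_mul_of_nonneg_right h5 (by positivity)
  have h3 := hxh t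
  have h4 : (0 : ℝ) ≤ t := Nat.cast_nonneg t
  have h5 : (r : ℝ) * (1 / (2 * (r + 1)) * L t) ≤ L t / 2 := by
    have h6 : (0 : ℝ) < r + 1 := by positivity
    have h7 : (r : ℝ) * (1 / (2 * (r + 1)) * L t) = (r / (r + 1)) * (L t / 2) := by
      field_simp
    rw [h7]
    have h8 : (r : ℝ) / (r + 1) ≤ 1 := by
      rw [div_le_one h6]
      linarith
    have h9 : 0 ≤ L t / 2 := by linarith
    nlinarith
  linarith

end Pool.Agent.Helper201_HF
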