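import Mathlib
import Pool.Agent.Helper201_HF.Core

set_option autoImplicit false
set_option linter.unusedSectionVars false
set_option linter.unusedSimpArgs false

/-! # Sums of elements of a group of finite rank: all varieties of bounded degree -/

namespace Pool.Agent.Helper201_HF

open Finset NumberField Height Module Filter
open MvPolynomial hiding psum
open Pool.Agent.Helper259.AbsHt Pool.Agent.H533R3.SL Pool.Agent.Y215.SP Pool.Agent.Y215.SK

variable {n N r : ℕ}

/-- the height of a form: the absolute logarithmic height of the vector of its coefficients -/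
noncomputable def formHeight (F : MvPolynomial (Fin (n + 1)) Qbar) : ℝ :=
  absLogHeight (fun m : F.support => coeff (m : Fin (n + 1) →₀ ℕ) F)

/-- no nonconstant rational curve `T ↦ ∑ T ^ (l j) c j` with `r` terms in the zero set of `FF`
passes through `x` (at `T = 1`) -/
def NoCurveThrough (r : ℕ) (FF : Set (MvPolynomial (Fin (n + 1)) Qbar)) (x : Fin (n + 1) → Qbar) :
    Prop :=
  ∀ (c : Fin r → Fin (n + 1) → Qbar) (l : Fin r → ℕ), (∀ a, ∑ j, c j a = x a) →
    (∀ F ∈ FF, aeval (fun a => ∑ j, Polynomial.C (c j a) * Polynomial.X ^ l j) F = 0) →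
    ∀ a b, (∑ j, Polynomial.C (c j a) * Polynomial.X ^ l j) * Polynomial.C (x b) =
      (∑ j, Polynomial.C (c j b) * Polynomial.X ^ l j) * Polynomial.C (x a)

/-- the exponents of degree at most `d` -/
noncomputable def expos (n d : ℕ) : Finset (Fin (n + 1) →₀ ℕ) :=
  (Finset.range (d + 1)).biUnion fun e =>
    (Finset.univ : Finset (Fin (n + 1))).finsuppAntidiag e

theorem support_expos {d e : ℕ} (he : e ≤ d) (F : MvPolynomial (Fin (n + 1)) Qbar)
    (hF : F.IsHomogeneous e) : F.support ⊆ expos n d := by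
  classical
  intro m hm
  unfold expos
  rw [Finset.mem_biUnion]
  refine ⟨e, Finset.mem_range.2 (by omega), ?_⟩
  rw [Finset.mem_finsuppAntidiag]
  refine ⟨?_, Finset.subset_univ _⟩
  have := hF (MvPolynomial.mem_support_iff.1 hm)
  rw [← this, Finsupp.weight_apply, Finsupp.sum_fintype _ _ (by simp)]
  simp

/-- finitely many of the equations are enough -/
theorem exists_sub (d : ℕ) (FF : Set (MvPolynomial (Fin (n + 1)) Qbar))
    (hFF : ∀ F ∈ FF, ∃ e, e ≤ d ∧ F.IsHomogeneous e) :
    ∃ (N : ℕ) (P : Fin N → MvPolynomial (Fin (n + 1)) Qbar), N ≤ (expos n d).card ∧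
      (∀ i, P i ∈ FF) ∧ ∀ F ∈ FF, F ∈ Submodule.span Qbar (Set.range P) := by
  classical
  obtain ⟨b, hb1, hb2, hb3⟩ := exists_linearIndependent Qbar FF
  let w : Finset (MvPolynomial (Fin (n + 1)) Qbar) := (expos n d).image fun m => monomial m 1
  have hrange : Set.range (Subtype.val : b → MvPolynomial (Fin (n + 1)) Qbar) ≤
      Submodule.span Qbar (w : Set (MvPolynomial (Fin (n + 1)) Qbar)) := by
    rintro _ ⟨F, rfl⟩
    obtain ⟨e, he, hF⟩ := hFF F.1 (hb1 F.2)
    show (F : MvPolynomial (Fin (n + 1)) Qbar) ∈ _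
    rw [(F : MvPolynomial (Fin (n + 1)) Qbar).as_sum]
    refine Submodule.sum_mem _ fun m hm => ?_
    have h1 : monomial m (coeff m (F : MvPolynomial (Fin (n + 1)) Qbar)) =
        coeff m (F : MvPolynomial (Fin (n + 1)) Qbar) •
          (monomial m 1 : MvPolynomial (Fin (n + 1)) Qbar) := by
      rw [MvPolynomial.smul_monomial, smul_eq_mul, mul_one]
    rw [h1]
    refine Submodule.smul_mem _ _ (Submodule.subset_span ?_)
    exact Finset.mem_coe.2 (Finset.mem_image_of_mem _ (support_expos he _ hF hm))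
  have hfin : Finite b := hb3.finite_of_le_span_finite _ (w : Set _) hrange
  have := Fintype.ofFinite b
  have hcard : Fintype.card b ≤ (expos n d).card := by
    have h1 := linearIndependent_le_span' _ hb3 (w : Set (MvPolynomial (Fin (n + 1)) Qbar)) hrange
    rw [Cardinal.mk_fintype] at h1
    have h2 : Fintype.card b ≤ Fintype.card (w : Set (MvPolynomial (Fin (n + 1)) Qbar)) := by
      exact_mod_cast h1
    refine h2.trans ?_
    rw [← Set.toFinset_card, Finset.toFinset_coe]
    exact Finset.card_image_le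
  let e : Fin (Fintype.card b) ≃ b := (Fintype.equivFin b).symm
  refine ⟨Fintype.card b, fun i => (e i).1, hcard, fun i => hb1 (e i).2, fun F hF => ?_⟩
  have h1 : Set.range (fun i => (e i).1) = b := by
    ext G
    constructor
    · rintro ⟨i, rfl⟩
      exact (e i).2
    · intro hG
      exact ⟨e.symm ⟨G, hG⟩, by simp⟩
  rw [h1, hb2]
  exact Submodule.subset_span hF

theorem span_zero {R : Type} [CommRing R] [Algebra Qbar R]
    (P : Fin N → MvPolynomial (Fin (n + 1)) Qbar) (x : Fin (n + 1) → R)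
    (hx : ∀ i, aeval x (P i) = 0) (F : MvPolynomial (Fin (n + 1)) Qbar)
    (hF : F ∈ Submodule.span Qbar (Set.range P)) : aeval x F = 0 := by
  have h1 : Submodule.span Qbar (Set.range P) ≤
      LinearMap.ker (aeval x : MvPolynomial (Fin (n + 1)) Qbar →ₐ[Qbar] R).toLinearMap := by
    rw [Submodule.span_le]
    rintro _ ⟨i, rfl⟩
    exact hx i
  exact h1 hF

/-- **Bounded multipliers, uniformly for all varieties of bounded degree.** -/
theorem uni (n d r : ℕ) (Γ : Subgroup Qbarˣ) (hΓ : Γ.FG) :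
    ∃ C : ℝ, 0 < C ∧ ∀ (FF : Set (MvPolynomial (Fin (n + 1)) Qbar)) (H : ℝ), 0 ≤ H →
      (∀ F ∈ FF, (∃ e, e ≤ d ∧ F.IsHomogeneous e) ∧ formHeight F ≤ H) →
      ∀ (u : Fin r → Qbarˣ) (V : Fin r → Fin (n + 1) → Qbar),
      (∀ j, u j ∈ DivHull Γ) → psum Finset.univ u V ≠ 0 →
      (∀ F ∈ FF, aeval (psum Finset.univ u V) F = 0) →
      NoCurveThrough r FF (psum Finset.univ u V) →
      ∃ J : Finset (Fin r), Good J u V ∧
        absLogHeight (fun j : J => (u j : Qbar)) ≤ C * (1 + hV V + H) := by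
  classical
  choose CC hCC using fun (N : ℕ) (e : Fin N → ℕ) => mult_boundM (n := n) (r := r) e Γ hΓ
  obtain ⟨M, hM⟩ : ∃ M : ℕ, M = (expos n d).card := ⟨_, rfl⟩
  obtain ⟨C, hC⟩ : ∃ C : ℝ, C = ∑ N ∈ Finset.range (M + 1), ∑ e : Fin N → Fin (d + 1),
    |CC N (fun i => (e i : ℕ))| := ⟨_, rfl⟩
  have hC0 : 0 ≤ C := by
    rw [hC]
    exact Finset.sum_nonneg fun _ _ => Finset.sum_nonneg fun _ _ => abs_nonneg _
  refine ⟨(C + 1) * (M + 1), by positivity, fun FF H hH hFF u V hu h0 hz hno => ?_⟩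
  obtain ⟨N, P, hN, hPF, hspan⟩ := exists_sub d FF (fun F hF => (hFF F hF).1)
  choose e he1 he2 using fun i => (hFF (P i) (hPF i)).1
  have hno' : NoCurve r P (psum Finset.univ u V) := by
    intro c l hc hcur
    exact hno c l hc fun F hF => span_zero P _ hcur F (hspan F hF)
  obtain ⟨J, hJ, hh⟩ := hCC N e P he2 u V hu h0 (fun i => hz _ (hPF i)) hno'
  refine ⟨J, hJ, hh.trans ?_⟩
  have hV0 : 0 ≤ hV V := absLogHeight_nonneg _
  have hP0 : 0 ≤ hP P := hP_nonneg P
  have h1 : hP P ≤ M * H := by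
    have h2 : hP P ≤ ∑ i : Fin N, H := Finset.sum_le_sum fun i _ => (hFF (P i) (hPF i)).2
    rw [Finset.sum_const, Finset.card_univ, Fintype.card_fin, nsmul_eq_mul] at h2
    refine h2.trans (mul_le_mul_of_nonneg_right ?_ hH)
    rw [hM]
    exact_mod_cast hN
  have h3 : CC N e ≤ C := by
    have h4 : |CC N e| ≤ ∑ e : Fin N → Fin (d + 1), |CC N (fun i => (e i : ℕ))| :=
      Finset.single_le_sum (f := fun e : Fin N → Fin (d + 1) => |CC N (fun i => (e i : ℕ))|)
        (fun _ _ => abs_nonneg _)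
        (Finset.mem_univ (fun i => (⟨e i, Nat.lt_succ_of_le (he1 i)⟩ : Fin (d + 1))))
    have h5 : ∑ e : Fin N → Fin (d + 1), |CC N (fun i => (e i : ℕ))| ≤ C := by
      rw [hC]
      exact Finset.single_le_sum (f := fun N => ∑ e : Fin N → Fin (d + 1),
        |CC N (fun i => (e i : ℕ))|) (fun _ _ => Finset.sum_nonneg fun _ _ => abs_nonneg _)
        (Finset.mem_range.2 (by omega))
    exact (le_abs_self _).trans (h4.trans h5)
  have hM0 : (0 : ℝ) ≤ M := Nat.cast_nonneg M
  calc CC N e * (1 + hV V + hP P) ≤ C * (1 + hV V + hP P) :=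
        mul_le_mul_of_nonneg_right h3 (by linarith)
    _ ≤ C * (1 + hV V + M * H) := mul_le_mul_of_nonneg_left (by linarith) hC0
    _ ≤ (C + 1) * ((M + 1) * (1 + hV V + H)) := by
        refine mul_le_mul (by linarith) ?_ (by positivity) (by linarith)
        nlinarith [mul_nonneg hM0 hV0]
    _ = (C + 1) * (M + 1) * (1 + hV V + H) := by ring

end Pool.Agent.Helper201_HF
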