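import Mathlib
import Pool.Agent.Helper201_HF.CoreT
import Pool.Agent.Helper201_HF.Uni

set_option autoImplicit false
set_option linter.unusedSectionVars false
set_option linter.unusedSimpArgs false

/-! # Sums of elements of a group of finite rank on affine varieties -/

namespace Pool.Agent.Helper201_HF

open Finset NumberField Height Module Filter
open MvPolynomial hiding psum
open Pool.Agent.Helper259.AbsHt Pool.Agent.H533R3.SL Pool.Agent.Y215.SP Pool.Agent.Y215.SK

variable {n N r : ℕ}

/-- the height of a polynomial: the absolute logarithmic height of the vector of its coefficients -/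
noncomputable def polyHeight (f : MvPolynomial (Fin n) Qbar) : ℝ :=
  absLogHeight (fun m : f.support => coeff (m : Fin n →₀ ℕ) f)

/-- `h(1 : x)` -/
noncomputable def hAff (x : Fin n → Qbar) : ℝ :=
  absLogHeight (fun o : Option (Fin n) => o.elim 1 x)

/-- `h(1 : V)`, the height of the vector of `1` and all coordinates of the `V_j` -/
noncomputable def hVAff (V : Fin r → Fin n → Qbar) : ℝ :=
  absLogHeight (fun o : Option (Fin r × Fin n) => o.elim 1 (fun p => V p.1 p.2))

/-- no nonconstant map `t ↦ ∑ t ^ (l j) c j`, `l j ∈ ℤ`, with `r` terms from the punctured line to the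
affine variety with the equations `FF` takes the value `x` at `t = 1` -/
def NoLineThrough (r : ℕ) (FF : Set (MvPolynomial (Fin n) Qbar)) (x : Fin n → Qbar) : Prop :=
  ∀ (c : Fin r → Fin n → Qbar) (l : Fin r → ℤ), (∀ a, ∑ j, c j a = x a) →
    (∀ t : Qbar, t ≠ 0 → ∀ f ∈ FF, aeval (fun a => ∑ j, c j a * t ^ l j) f = 0) →
    ∀ t : Qbar, t ≠ 0 → ∀ a, ∑ j, c j a * t ^ l j = x a

/-- the conclusion: `x = ∑ u_j V_j` is a partial sum whose multipliers have small height -/
def AffBound (C H : ℝ) (u : Fin r → Qbarˣ) (V : Fin r → Fin n → Qbar) (x : Fin n → Qbar) : Prop :=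
  hAff x ≤ C * (1 + hVAff V + H) ∧
  ∃ J : Finset (Fin r), (∀ a, x a = ∑ j ∈ J, (u j : Qbar) * V j a) ∧
    absLogHeight (fun o : Option J => o.elim 1 (fun j => (u j : Qbar))) ≤ C * (1 + hVAff V + H)

/-! ### homogenisation -/

/-- the homogenisation of degree `d` -/
noncomputable def homz (d : ℕ) (f : MvPolynomial (Fin n) Qbar) : MvPolynomial (Fin (n + 1)) Qbar :=
  formOf d (fun m => coeff m.tail f)

theorem support_tail {d : ℕ} (f : MvPolynomial (Fin n) Qbar) (hf : f.totalDegree ≤ d) :
    f.support ⊆ ((Finset.univ : Finset (Fin (n + 1))).finsuppAntidiag d).image Finsupp.tail := by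
  classical
  intro m hm
  rw [Finset.mem_image]
  have h1 := (MvPolynomial.le_totalDegree hm).trans hf
  rw [Finsupp.sum_fintype _ _ (fun _ => rfl)] at h1
  refine ⟨Finsupp.cons (d - ∑ i, m i) m, ?_, Finsupp.tail_cons _ _⟩
  rw [Finset.mem_finsuppAntidiag]
  refine ⟨?_, Finset.subset_univ _⟩
  rw [Fin.sum_univ_succ, Finsupp.cons_zero]
  simp_rw [Finsupp.cons_succ]
  omega

theorem homz_aeval {R : Type} [CommRing R] [Algebra Qbar R] {d : ℕ}
    (f : MvPolynomial (Fin n) Qbar) (hf : f.totalDegree ≤ d) (x : Fin n → R) :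
    aeval (Fin.cons 1 x : Fin (n + 1) → R) (homz d f) = aeval x f := by
  classical
  obtain ⟨g, hg⟩ : ∃ g : (Fin n →₀ ℕ) → R,
    g = fun m' => algebraMap Qbar R (coeff m' f) * ∏ i, x i ^ m' i := ⟨_, rfl⟩
  have h1 : ∀ m : Fin (n + 1) →₀ ℕ, algebraMap Qbar R (coeff m.tail f) *
      ∏ a, (Fin.cons 1 x : Fin (n + 1) → R) a ^ m a = g m.tail := by
    intro m
    rw [hg, Fin.prod_univ_succ]
    simp [Finsupp.tail_apply]
  have h2 : aeval x f = ∑ m ∈ f.support, g m := by
    rw [MvPolynomial.aeval_def, MvPolynomial.eval₂_eq', hg]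
  unfold homz
  rw [formOf_aeval, Finset.sum_congr rfl (fun m _ => h1 m), h2]
  have hinj : Set.InjOn (Finsupp.tail : (Fin (n + 1) →₀ ℕ) → (Fin n →₀ ℕ))
      ((Finset.univ : Finset (Fin (n + 1))).finsuppAntidiag d) := by
    intro a ha b hb hab
    rw [Finset.mem_coe, Finset.mem_finsuppAntidiag] at ha hb
    have h3 : ∀ i : Fin n, a i.succ = b i.succ := by
      intro i
      rw [← Finsupp.tail_apply, ← Finsupp.tail_apply, hab]
    have h4 := ha.1.trans hb.1.symm
    rw [Fin.sum_univ_succ, Fin.sum_univ_succ, Finset.sum_congr rfl (fun i _ => h3 i)] at h4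
    ext i
    refine Fin.cases ?_ (fun i => h3 i) i
    omega
  rw [← Finset.sum_image (f := g) hinj]
  refine (Finset.sum_subset (support_tail f hf) ?_).symm
  intro m _ hm
  rw [hg]
  simp only
  rw [MvPolynomial.notMem_support_iff.1 hm, map_zero, zero_mul]

theorem homz_height (d : ℕ) (f : MvPolynomial (Fin n) Qbar) :
    absLogHeight (fun m : (homz d f).support => coeff (m : Fin (n + 1) →₀ ℕ) (homz d f)) ≤
      polyHeight f := by
  classical
  have h1 : ∀ m : Fin (n + 1) →₀ ℕ, coeff m (homz d f) ≠ 0 →
      coeff m (homz d f) = coeff m.tail f := by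
    intro m hm
    unfold homz formOf at hm ⊢
    rw [MvPolynomial.coeff_sum] at hm ⊢
    simp_rw [MvPolynomial.coeff_monomial] at hm ⊢
    rw [Finset.sum_ite_eq'] at hm ⊢
    by_cases h : m ∈ (Finset.univ : Finset (Fin (n + 1))).finsuppAntidiag d
    · rw [if_pos h]
    · rw [if_neg h] at hm
      exact absurd rfl hm
  have h2 : ∀ m : (homz d f).support, (m : Fin (n + 1) →₀ ℕ).tail ∈ f.support := by
    intro m
    have h3 := MvPolynomial.mem_support_iff.1 m.2
    rw [MvPolynomial.mem_support_iff, ← h1 _ h3]
    exact h3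
  have h3 : (fun m : (homz d f).support => coeff (m : Fin (n + 1) →₀ ℕ) (homz d f)) =
      (fun m : f.support => coeff (m : Fin n →₀ ℕ) f) ∘
        (fun m : (homz d f).support => (⟨(m : Fin (n + 1) →₀ ℕ).tail, h2 m⟩ : f.support)) := by
    funext m
    exact h1 _ (MvPolynomial.mem_support_iff.1 m.2)
  rw [h3]
  exact absLogHeight_comp_le _ _

theorem eval_curve (q : Fin (n + 1) → Polynomial Qbar) (F : MvPolynomial (Fin (n + 1)) Qbar)
    (z : Qbar) : aeval (fun i => (q i).eval z) F = (aeval q F : Polynomial Qbar).eval z := by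
  have h1 : (aeval q F : Polynomial Qbar).eval z =
      MvPolynomial.eval₂ ((Polynomial.evalRingHom z).comp (algebraMap Qbar (Polynomial Qbar)))
        (fun i => Polynomial.evalRingHom z (q i)) F := by
    rw [MvPolynomial.aeval_def]
    exact MvPolynomial.hom_eval₂ F _ (Polynomial.evalRingHom z) _
  rw [h1, MvPolynomial.aeval_def]
  congr 1
  refine RingHom.ext fun a => ?_
  show _ = Polynomial.eval z (algebraMap Qbar (Polynomial Qbar) a)
  rw [Polynomial.algebraMap_apply]
  show _ = Polynomial.eval z (Polynomial.C _)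
  rw [Polynomial.eval_C]

/-! ### the projective data of an affine representation -/

/-- the pattern of the coordinates -/
def pat1 (n r : ℕ) : Set (Fin (r + 1) × Fin (n + 1)) :=
  {p | (p.1 = 0 ∧ p.2 = 0) ∨ (p.1 ≠ 0 ∧ p.2 ≠ 0)}

/-- the vectors -/
noncomputable def VV (V : Fin r → Fin n → Qbar) : Fin (r + 1) → Fin (n + 1) → Qbar :=
  Fin.cons (Fin.cons 1 (fun _ => 0)) (fun j => Fin.cons 0 (V j))

theorem VV_zero (V : Fin r → Fin n → Qbar) (j : Fin (r + 1)) (a : Fin (n + 1))
    (h : (j, a) ∉ pat1 n r) : VV V j a = 0 := by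
  unfold pat1 at h
  simp only [Set.mem_ofPred_eq, not_or, not_and, not_not] at h
  unfold VV
  induction j using Fin.cases with
  | zero =>
    induction a using Fin.cases with
    | zero => exact absurd rfl (h.1 rfl)
    | succ a => simp
  | succ j =>
    induction a using Fin.cases with
    | zero => simp
    | succ a => exact absurd (h.2 (Fin.succ_ne_zero j)) (Fin.succ_ne_zero a)

theorem VV_height (n r : ℕ) : ∃ c : ℝ, 0 ≤ c ∧ ∀ V : Fin r → Fin n → Qbar,
    hV (VV V) ≤ c + hVAff V := by
  classical
  let A : (Fin (r + 1) × Fin (n + 1)) × Option (Fin r × Fin n) → Qbar := fun p =>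
    p.2.elim (if p.1 = (0, 0) then 1 else 0)
      (fun q => if p.1 = (q.1.succ, q.2.succ) then 1 else 0)
  refine ⟨|Real.log (Nat.card (Option (Fin r × Fin n)))| + absLogHeight A,
    add_nonneg (abs_nonneg _) (absLogHeight_nonneg _), fun V => ?_⟩
  have h1 := absLogHeight_linear A
    (fun o : Option (Fin r × Fin n) => o.elim 1 (fun p => V p.1 p.2))
  have h2 : (fun p : Fin (r + 1) × Fin (n + 1) => VV V p.1 p.2) =
      fun p => ∑ o : Option (Fin r × Fin n), A (p, o) *
        (o.elim 1 (fun p => V p.1 p.2)) := by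
    funext p
    obtain ⟨j, a⟩ := p
    rw [Fintype.sum_option]
    show VV V j a = (if (j, a) = (0, 0) then (1 : Qbar) else 0) * 1 +
      ∑ q : Fin r × Fin n, (if (j, a) = (q.1.succ, q.2.succ) then (1 : Qbar) else 0) * V q.1 q.2
    unfold VV
    induction j using Fin.cases with
    | zero =>
      have h3 : ∑ q : Fin r × Fin n,
          (if ((0 : Fin (r + 1)), a) = (q.1.succ, q.2.succ) then (1 : Qbar) else 0) *
            V q.1 q.2 = 0 := by
        refine Finset.sum_eq_zero fun q _ => ?_
        rw [if_neg, zero_mul]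
        intro h
        exact (Fin.succ_ne_zero _ (congrArg Prod.fst h).symm)
      rw [h3]
      induction a using Fin.cases with
      | zero => simp
      | succ a =>
        rw [if_neg (by
          intro h
          exact Fin.succ_ne_zero _ (congrArg Prod.snd h))]
        simp
    | succ j =>
      rw [if_neg (by
          intro h
          exact Fin.succ_ne_zero _ (congrArg Prod.fst h))]
      induction a using Fin.cases with
      | zero =>
        have h3 : ∑ q : Fin r × Fin n,
            (if (j.succ, (0 : Fin (n + 1))) = (q.1.succ, q.2.succ) then (1 : Qbar) else 0) *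
              V q.1 q.2 = 0 := by
          refine Finset.sum_eq_zero fun q _ => ?_
          rw [if_neg, zero_mul]
          intro h
          exact (Fin.succ_ne_zero _ (congrArg Prod.snd h).symm)
        rw [h3]
        simp
      | succ a =>
        rw [Finset.sum_eq_single (j, a)]
        · simp
        · intro q _ hq
          rw [if_neg, zero_mul]
          intro h
          apply hq
          have h4 := Fin.succ_injective _ (congrArg Prod.fst h)
          have h5 := Fin.succ_injective _ (congrArg Prod.snd h)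
          exact Prod.ext h4.symm h5.symm
        · intro h
          exact absurd (Finset.mem_univ _) h
  unfold hV
  rw [h2]
  have h3 := le_abs_self (Real.log (Nat.card (Option (Fin r × Fin n))))
  unfold hVAff
  linarith

end Pool.Agent.Helper201_HF
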