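import Mathlib
import Pool.Agent.Helper201_HF.Aff

set_option autoImplicit false
set_option linter.unusedSectionVars false
set_option linter.unusedSimpArgs false

/-! # Sums of elements of a group of finite rank on affine varieties: the main bound -/

namespace Pool.Agent.Helper201_HF

open Finset NumberField Height Module Filter
open MvPolynomial hiding psum
open Pool.Agent.Helper259.AbsHt Pool.Agent.H533R3.SL Pool.Agent.Y215.SP Pool.Agent.Y215.SK

variable {n N r : ℕ}

theorem psum_VV (J : Finset (Fin (r + 1))) (u : Fin r → Qbarˣ) (V : Fin r → Fin n → Qbar)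
    (a : Fin (n + 1)) :
    psum J (Fin.cons 1 u : Fin (r + 1) → Qbarˣ) (VV V) a =
      (if (0 : Fin (r + 1)) ∈ J then (Fin.cons 1 (fun _ => 0) : Fin (n + 1) → Qbar) a else 0) +
      ∑ j ∈ Finset.univ.filter (fun j : Fin r => j.succ ∈ J),
        (u j : Qbar) * (Fin.cons 0 (V j) : Fin (n + 1) → Qbar) a := by
  classical
  have h1 : J = Finset.univ.filter (fun j => j ∈ J) := by
    ext j
    simp
  unfold psum
  conv_lhs => rw [h1]
  rw [Finset.sum_filter, Fin.sum_univ_succ, Finset.sum_filter]
  unfold VV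
  simp only [Fin.cons_zero, Fin.cons_succ, Units.val_one, one_mul]

theorem psum_univ (u : Fin r → Qbarˣ) (V : Fin r → Fin n → Qbar) (x : Fin n → Qbar)
    (hx : ∀ a, x a = ∑ j, (u j : Qbar) * V j a) :
    psum Finset.univ (Fin.cons 1 u : Fin (r + 1) → Qbarˣ) (VV V) =
      (Fin.cons 1 x : Fin (n + 1) → Qbar) := by
  classical
  funext a
  rw [psum_VV]
  induction a using Fin.cases with
  | zero => simp
  | succ a => simp [hx a]

theorem noCurveT_of {d : ℕ} (f : Fin N → MvPolynomial (Fin n) Qbar)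
    (hf : ∀ i, (f i).totalDegree ≤ d) (x : Fin n → Qbar)
    (h : NoLineThrough r (Set.range f) x) :
    NoCurveT (r + 1) (pat1 n r) (fun i => homz d (f i)) (Fin.cons 1 x : Fin (n + 1) → Qbar) := by
  intro c l hT hc hcur
  have hcj0 : ∀ j : Fin r, c j.succ 0 = 0 := by
    intro j
    apply hT
    intro h0
    rcases h0 with h0 | h0
    · exact Fin.succ_ne_zero j h0.1
    · exact h0.2 rfl
  have hc0a : ∀ a : Fin n, c 0 a.succ = 0 := by
    intro a
    apply hT
    intro h0
    rcases h0 with h0 | h0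
    · exact Fin.succ_ne_zero a h0.2
    · exact h0.1 rfl
  have hc00 : c 0 0 = 1 := by
    have h1 := hc 0
    rw [Fin.sum_univ_succ, Finset.sum_eq_zero (fun j _ => hcj0 j), add_zero] at h1
    exact h1
  have hcur0 : cur c l 0 = Polynomial.X ^ (l 0) := by
    unfold cur
    rw [Fin.sum_univ_succ, Finset.sum_eq_zero (fun j _ => by rw [hcj0 j, Polynomial.C_0, zero_mul]),
      hc00, Polynomial.C_1, one_mul, add_zero]
  obtain ⟨y, hy⟩ : ∃ y : Qbar → Fin n → Qbar, y = fun t a => ∑ j : Fin r,
    c j.succ a.succ * t ^ ((l j.succ : ℤ) - (l 0 : ℤ)) := ⟨_, rfl⟩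
  have hev : ∀ t : Qbar, t ≠ 0 → ∀ a : Fin n, (cur c l a.succ).eval t = t ^ (l 0) * y t a := by
    intro t ht a
    unfold cur
    rw [Polynomial.eval_finsetSum, Fin.sum_univ_succ, hc0a, Polynomial.C_0, zero_mul,
      Polynomial.eval_zero, zero_add, hy, Finset.mul_sum]
    refine Finset.sum_congr rfl fun j _ => ?_
    rw [Polynomial.eval_mul, Polynomial.eval_C, Polynomial.eval_pow, Polynomial.eval_X,
      zpow_sub₀ ht, zpow_natCast, zpow_natCast]
    field_simp
  have hvan : ∀ t : Qbar, t ≠ 0 → ∀ g ∈ Set.range f, aeval (y t) g = 0 := by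
    rintro t ht _ ⟨i, rfl⟩
    have h1 := eval_curve (cur c l) (homz d (f i)) t
    have h3 : aeval (cur c l) (homz d (f i)) = 0 := hcur i
    rw [h3, Polynomial.eval_zero] at h1
    have h2 : (fun a => (cur c l a).eval t) =
        fun a => t ^ (l 0) * (Fin.cons 1 (y t) : Fin (n + 1) → Qbar) a := by
      funext a
      induction a using Fin.cases with
      | zero => rw [hcur0, Polynomial.eval_pow, Polynomial.eval_X, Fin.cons_zero, mul_one]
      | succ a => rw [hev t ht a, Fin.cons_succ]
    have hhom : (homz d (f i)).IsHomogeneous d := formOf_hom d _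
    rw [h2, aeval_hom_smul _ hhom] at h1
    have h4 := homz_aeval (f i) (hf i) (y t)
    rcases mul_eq_zero.1 h1 with h5 | h5
    · exact absurd h5 (pow_ne_zero _ (pow_ne_zero _ ht))
    · rw [← h4]
      exact h5
  have hyx := h (fun j a => c j.succ a.succ) (fun j => (l j.succ : ℤ) - (l 0 : ℤ)) (fun a => by
      have h1 := hc a.succ
      rw [Fin.sum_univ_succ, hc0a, zero_add, Fin.cons_succ] at h1
      exact h1) (fun t ht g hg => by
      have h1 := hvan t ht g hg
      rw [hy] at h1
      exact h1)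
  have hcura : ∀ a, cur c l a =
      Polynomial.X ^ (l 0) * Polynomial.C ((Fin.cons 1 x : Fin (n + 1) → Qbar) a) := by
    intro a
    induction a using Fin.cases with
    | zero => rw [hcur0, Fin.cons_zero, Polynomial.C_1, mul_one]
    | succ a =>
      apply Polynomial.eq_of_infinite_eval_eq
      refine Set.Infinite.mono (s := {t : Qbar | t ≠ 0}) ?_ ?_
      · intro t ht
        show Polynomial.eval t _ = Polynomial.eval t _
        rw [hev t ht a, Polynomial.eval_mul, Polynomial.eval_pow, Polynomial.eval_X,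
          Polynomial.eval_C, Fin.cons_succ, hy]
        congr 1
        exact hyx t ht a
      · exact (Set.finite_singleton (0 : Qbar)).infinite_compl
  intro a b
  rw [hcura a, hcura b]
  ring

theorem aff_core (n r N d : ℕ) (Γ : Subgroup Qbarˣ) (hΓ : Γ.FG) :
    ∃ C : ℝ, 0 ≤ C ∧ ∀ (f : Fin N → MvPolynomial (Fin n) Qbar) (H : ℝ), 0 ≤ H →
      (∀ i, (f i).totalDegree ≤ d ∧ polyHeight (f i) ≤ H) →
      ∀ (u : Fin r → Qbarˣ) (V : Fin r → Fin n → Qbar) (x : Fin n → Qbar),
      (∀ j, u j ∈ DivHull Γ) → (∀ a, x a = ∑ j, (u j : Qbar) * V j a) →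
      (∀ i, aeval x (f i) = 0) → NoLineThrough r (Set.range f) x → AffBound C H u V x := by
  classical
  obtain ⟨C, hC⟩ := mult_boundMT (n := n) (r := r + 1) (N := N) (pat1 n r) (fun _ => d) Γ hΓ
  obtain ⟨c, hc0, hc⟩ := VV_height n r
  refine ⟨|C| * (1 + c + N) + (r + 2 + c), by positivity,
    fun f H hH hf u V x hu hx hz hno => ?_⟩
  have hps := psum_univ u V x hx
  have hx'0 : (Fin.cons 1 x : Fin (n + 1) → Qbar) ≠ 0 := by
    intro h
    have := congrFun h 0
    rw [Fin.cons_zero] at this
    exact one_ne_zero this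
  have hu' : ∀ j, (Fin.cons 1 u : Fin (r + 1) → Qbarˣ) j ∈ DivHull Γ := by
    intro j
    induction j using Fin.cases with
    | zero => exact ⟨1, one_pos, by rw [Fin.cons_zero, one_pow]; exact one_mem Γ⟩
    | succ j => rw [Fin.cons_succ]; exact hu j
  obtain ⟨J, hJ, hh⟩ := hC (fun i => homz d (f i)) (fun i => formOf_hom d _)
    (Fin.cons 1 u : Fin (r + 1) → Qbarˣ) (VV V) (fun j a h => VV_zero V j a h) hu'
    (by rw [hps]; exact hx'0)
    (fun i => by rw [hps, homz_aeval (f i) (hf i).1]; exact hz i)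
    (by rw [hps]; exact noCurveT_of f (fun i => (hf i).1) x hno)
  obtain ⟨z, hz0, hz1⟩ := good_prop J _ _ hJ (by rw [hps]; exact hx'0)
  rw [hps] at hz1
  -- the index `0` belongs to `J`
  have h00 := congrFun hz1 0
  rw [psum_VV] at h00
  simp only [Fin.cons_zero, mul_zero, Finset.sum_const_zero, add_zero, Pi.smul_apply,
    smul_eq_mul, mul_one] at h00
  have h0J : (0 : Fin (r + 1)) ∈ J := by
    by_contra h
    rw [if_neg h] at h00
    exact hz0 h00.symm
  rw [if_pos h0J] at h00
  have hz2 : psum J (Fin.cons 1 u : Fin (r + 1) → Qbarˣ) (VV V) =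
      (Fin.cons 1 x : Fin (n + 1) → Qbar) := by
    rw [hz1, ← h00, one_smul]
  -- heights
  have hVV := hc V
  have hV0 : 0 ≤ hVAff V := absLogHeight_nonneg _
  have hN0 : (0 : ℝ) ≤ N := Nat.cast_nonneg N
  have hr0 : (0 : ℝ) ≤ r := Nat.cast_nonneg r
  have hP : hP (fun i => homz d (f i)) ≤ N * H := by
    have h2 : hP (fun i => homz d (f i)) ≤ ∑ i : Fin N, H :=
      Finset.sum_le_sum fun i _ => (homz_height d (f i)).trans (hf i).2
    rw [Finset.sum_const, Finset.card_univ, Fintype.card_fin, nsmul_eq_mul] at h2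
    exact h2
  have hmul : absLogHeight (fun j : J => (((Fin.cons 1 u : Fin (r + 1) → Qbarˣ) j : Qbarˣ) : Qbar))
      ≤ |C| * (1 + c + N) * (1 + hVAff V + H) := by
    refine hh.trans ?_
    have h1 : 0 ≤ hV (VV V) := absLogHeight_nonneg _
    have h2 := hP_nonneg (fun i => homz d (f i))
    calc C * (1 + hV (VV V) + Pool.Agent.Helper201_HF.hP fun i => homz d (f i))
        ≤ |C| * (1 + hV (VV V) + Pool.Agent.Helper201_HF.hP fun i => homz d (f i)) :=
          mul_le_mul_of_nonneg_right (le_abs_self C) (by linarith)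
      _ ≤ |C| * ((1 + c + N) * (1 + hVAff V + H)) := by
          refine mul_le_mul_of_nonneg_left ?_ (abs_nonneg C)
          nlinarith [mul_nonneg hc0 hV0, mul_nonneg hc0 hH, mul_nonneg hN0 hV0]
      _ = |C| * (1 + c + N) * (1 + hVAff V + H) := by ring
  have hK : 0 ≤ |C| * (1 + c + N) := by positivity
  refine ⟨?_, Finset.univ.filter (fun j : Fin r => j.succ ∈ J), fun a => ?_, ?_⟩
  · have h1 : hAff x ≤ absLogHeight (Fin.cons 1 x : Fin (n + 1) → Qbar) := by
      have h2 : (fun o : Option (Fin n) => o.elim 1 x) =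
          (Fin.cons 1 x : Fin (n + 1) → Qbar) ∘ (fun o : Option (Fin n) => o.elim 0 Fin.succ) := by
        funext o
        cases o with
        | none => rfl
        | some a => rfl
      unfold hAff
      rw [h2]
      exact absLogHeight_comp_le _ _
    have h3 := psum_height J (Fin.cons 1 u : Fin (r + 1) → Qbarˣ) (VV V)
    rw [hz2] at h3
    push_cast at h3
    nlinarith [mul_nonneg hc0 hV0, mul_nonneg hc0 hH, mul_nonneg hr0 hV0, mul_nonneg hr0 hH]
  · have h1 := congrFun hz2 a.succ
    rw [psum_VV, if_pos h0J] at h1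
    simp only [Fin.cons_succ, zero_add] at h1
    exact h1.symm
  · refine le_trans ?_ (hmul.trans ?_)
    · have hmem : ∀ j : (Finset.univ.filter (fun j : Fin r => j.succ ∈ J)),
          (j : Fin r).succ ∈ J := fun j => (Finset.mem_filter.1 j.2).2
      have h2 : (fun o : Option (Finset.univ.filter (fun j : Fin r => j.succ ∈ J)) =>
          o.elim (1 : Qbar) (fun j => (u j : Qbar))) =
          (fun j : J => (((Fin.cons 1 u : Fin (r + 1) → Qbarˣ) j : Qbarˣ) : Qbar)) ∘
            (fun o => o.elim (⟨0, h0J⟩ : J) (fun j => ⟨(j : Fin r).succ, hmem j⟩)) := by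
        funext o
        cases o with
        | none => rfl
        | some a => rfl
      rw [h2]
      exact absLogHeight_comp_le _ _
    · nlinarith [mul_nonneg hc0 hV0, mul_nonneg hc0 hH, mul_nonneg hr0 hV0, mul_nonneg hr0 hH]

end Pool.Agent.Helper201_HF
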