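import Mathlib
import Pool.Agent.Helper201_HF.Aff2

set_option autoImplicit false
set_option linter.unusedSectionVars false
set_option linter.unusedSimpArgs false

/-! # Sums of elements of a group of finite rank on all affine varieties of bounded degree -/

namespace Pool.Agent.Helper201_HF

open Finset NumberField Height Module Filter
open MvPolynomial hiding psum
open Pool.Agent.Helper259.AbsHt Pool.Agent.H533R3.SL Pool.Agent.Y215.SP Pool.Agent.Y215.SK

variable {n N r : ℕ}

/-- the exponents of degree at most `d` -/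
noncomputable def exposA (n d : ℕ) : Finset (Fin n →₀ ℕ) :=
  ((Finset.univ : Finset (Fin (n + 1))).finsuppAntidiag d).image Finsupp.tail

/-- finitely many of the equations are enough -/
theorem exists_subA (d : ℕ) (FF : Set (MvPolynomial (Fin n) Qbar))
    (hFF : ∀ F ∈ FF, F.totalDegree ≤ d) :
    ∃ (N : ℕ) (P : Fin N → MvPolynomial (Fin n) Qbar), N ≤ (exposA n d).card ∧
      (∀ i, P i ∈ FF) ∧ ∀ F ∈ FF, F ∈ Submodule.span Qbar (Set.range P) := by
  classical
  obtain ⟨b, hb1, hb2, hb3⟩ := exists_linearIndependent Qbar FF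
  let w : Finset (MvPolynomial (Fin n) Qbar) := (exposA n d).image fun m => monomial m 1
  have hrange : Set.range (Subtype.val : b → MvPolynomial (Fin n) Qbar) ≤
      Submodule.span Qbar (w : Set (MvPolynomial (Fin n) Qbar)) := by
    rintro _ ⟨F, rfl⟩
    have hF := hFF F.1 (hb1 F.2)
    show (F : MvPolynomial (Fin n) Qbar) ∈ _
    rw [(F : MvPolynomial (Fin n) Qbar).as_sum]
    refine Submodule.sum_mem _ fun m hm => ?_
    have h1 : monomial m (coeff m (F : MvPolynomial (Fin n) Qbar)) =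
        coeff m (F : MvPolynomial (Fin n) Qbar) •
          (monomial m 1 : MvPolynomial (Fin n) Qbar) := by
      rw [MvPolynomial.smul_monomial, smul_eq_mul, mul_one]
    rw [h1]
    refine Submodule.smul_mem _ _ (Submodule.subset_span ?_)
    exact Finset.mem_coe.2 (Finset.mem_image_of_mem _ (support_tail _ hF hm))
  have hfin : Finite b := hb3.finite_of_le_span_finite _ (w : Set _) hrange
  have := Fintype.ofFinite b
  have hcard : Fintype.card b ≤ (exposA n d).card := by
    have h1 := linearIndependent_le_span' _ hb3 (w : Set (MvPolynomial (Fin n) Qbar)) hrange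
    rw [Cardinal.mk_fintype] at h1
    have h2 : Fintype.card b ≤ Fintype.card (w : Set (MvPolynomial (Fin n) Qbar)) := by
      exact_mod_cast h1
    refine h2.trans ?_
    rw [← Set.toFinset_card, Finset.toFinset_coe]
    exact Finset.card_image_le
  let e : Fin (Fintype.card b) ≃ b := (Fintype.equivFin b).symm
  refine ⟨Fintype.card b, fun i => (e i).1, hcard, fun i => hb1 (e i).2, fun F hF => ?_⟩
  have h1 : Set.range (fun i => (e i).1) = b := by
    ext G
    constructor
    · rintro ⟨i, rfl⟩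
      exact (e i).2
    · intro hG
      exact ⟨e.symm ⟨G, hG⟩, by simp⟩
  rw [h1, hb2]
  exact Submodule.subset_span hF

theorem span_zeroA {R : Type} [CommRing R] [Algebra Qbar R]
    (P : Fin N → MvPolynomial (Fin n) Qbar) (x : Fin n → R)
    (hx : ∀ i, aeval x (P i) = 0) (F : MvPolynomial (Fin n) Qbar)
    (hF : F ∈ Submodule.span Qbar (Set.range P)) : aeval x F = 0 := by
  have h1 : Submodule.span Qbar (Set.range P) ≤
      LinearMap.ker (aeval x : MvPolynomial (Fin n) Qbar →ₐ[Qbar] R).toLinearMap := by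
    rw [Submodule.span_le]
    rintro _ ⟨i, rfl⟩
    exact hx i
  exact h1 hF

/-- **All affine varieties of bounded degree.** -/
theorem aff_all (n d r : ℕ) (Γ : Subgroup Qbarˣ) (hΓ : Γ.FG) :
    ∃ C : ℝ, 0 < C ∧ ∀ (FF : Set (MvPolynomial (Fin n) Qbar)) (H : ℝ), 0 ≤ H →
      (∀ f ∈ FF, f.totalDegree ≤ d ∧ polyHeight f ≤ H) →
      ∀ (u : Fin r → Qbarˣ) (V : Fin r → Fin n → Qbar) (x : Fin n → Qbar),
      (∀ j, u j ∈ DivHull Γ) → (∀ a, x a = ∑ j, (u j : Qbar) * V j a) →
      (∀ f ∈ FF, aeval x f = 0) → NoLineThrough r FF x → AffBound C H u V x := by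
  classical
  choose CC hCC0 hCC using fun N : ℕ => aff_core n r N d Γ hΓ
  obtain ⟨C, hC⟩ : ∃ C : ℝ, C = ∑ N ∈ Finset.range ((exposA n d).card + 1), CC N := ⟨_, rfl⟩
  have hC0 : 0 ≤ C := by
    rw [hC]
    exact Finset.sum_nonneg fun N _ => hCC0 N
  refine ⟨C + 1, by linarith, fun FF H hH hFF u V x hu hx hz hno => ?_⟩
  obtain ⟨N, P, hN, hPF, hspan⟩ := exists_subA d FF (fun F hF => (hFF F hF).1)
  have hno' : NoLineThrough r (Set.range P) x := by
    intro c l hc hcur
    exact hno c l hc fun t ht F hF =>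
      span_zeroA P _ (fun i => hcur t ht _ ⟨i, rfl⟩) F (hspan F hF)
  obtain ⟨h1, J, h2, h3⟩ := hCC N P H hH (fun i => hFF _ (hPF i)) u V x hu hx
    (fun i => hz _ (hPF i)) hno'
  have hV0 : 0 ≤ hVAff V := absLogHeight_nonneg _
  have h4 : CC N ≤ C + 1 := by
    have h5 : CC N ≤ C := by
      rw [hC]
      exact Finset.single_le_sum (f := fun N => CC N) (fun N _ => hCC0 N)
        (Finset.mem_range.2 (by omega))
    linarith
  have h6 : CC N * (1 + hVAff V + H) ≤ (C + 1) * (1 + hVAff V + H) :=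
    mul_le_mul_of_nonneg_right h4 (by linarith)
  exact ⟨h1.trans h6, J, h2, h3.trans h6⟩

/-- finitely many points of bounded height -/
theorem northcott_aff (K : Type) [Field K] [NumberField K] (φ : K →+* Qbar) (B : ℝ) :
    {y : Fin n → K | hAff (fun a => φ (y a)) ≤ B}.Finite := by
  classical
  have hN := Northcott.finite_le (h := fun x : K => logHeight₁ x) (B * finrank ℚ K)
  have hT : {y : Fin n → K | ∀ a, y a ∈ {x : K | logHeight₁ x ≤ B * finrank ℚ K}}.Finite :=
    Set.Finite.pi' fun _ => hN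
  have hpos : (0 : ℝ) < finrank ℚ K := by exact_mod_cast Module.finrank_pos
  refine hT.subset ?_
  intro y hy a
  have h2 : Pool.Agent.Y215.SK.h1 (φ (y a)) ≤ hAff (fun a => φ (y a)) := by
    have h3 : (![φ (y a), 1] : Fin 2 → Qbar) =
        (fun o : Option (Fin n) => o.elim 1 (fun a => φ (y a))) ∘
          (![some a, none] : Fin 2 → Option (Fin n)) := by
      funext i
      fin_cases i <;> rfl
    unfold Pool.Agent.Y215.SK.h1 hAff
    rw [h3]
    exact absLogHeight_comp_le _ _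
  rw [h1_eq, div_le_iff₀ hpos] at h2
  have hy' : hAff (fun a => φ (y a)) ≤ B := hy
  show logHeight₁ (y a) ≤ B * finrank ℚ K
  exact h2.trans (mul_le_mul_of_nonneg_right hy' hpos.le)

/-- the affine variety with the equations `FF` contains no image of a nonconstant map
`t ↦ ∑ t ^ (l j) c j` from the punctured line -/
def NoPuncturedLines (FF : Set (MvPolynomial (Fin n) Qbar)) : Prop :=
  ∀ (s : ℕ) (c : Fin s → Fin n → Qbar) (l : Fin s → ℤ),
    (∀ t : Qbar, t ≠ 0 → ∀ f ∈ FF, aeval (fun a => ∑ j, c j a * t ^ l j) f = 0) →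
    ∀ t : Qbar, t ≠ 0 → ∀ a, ∑ j, c j a * t ^ l j = ∑ j, c j a

/-- `x` is a point of the affine variety with the equations `FF`, with a representation
`x = ∑ u_j V_j` with `r` terms, `u_j` with a power in `Γ` and `2 C h(1 : V) ≤ h(1 : x) + B` -/
def CompressibleAff (FF : Set (MvPolynomial (Fin n) Qbar)) (Γ : Subgroup Qbarˣ) (r : ℕ) (C B : ℝ)
    (x : Fin n → Qbar) : Prop :=
  (∀ f ∈ FF, aeval x f = 0) ∧
    ∃ (u : Fin r → Qbarˣ) (V : Fin r → Fin n → Qbar), (∀ j, u j ∈ DivHull Γ) ∧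
      (∀ a, x a = ∑ j, (u j : Qbar) * V j a) ∧ 2 * C * hVAff V ≤ hAff x + B

theorem mainAff (n d r : ℕ) (Γ : Subgroup Qbarˣ) (hΓ : Γ.FG) :
    ∃ C : ℝ, 0 < C ∧ ∀ (FF : Set (MvPolynomial (Fin n) Qbar)) (H : ℝ), 0 ≤ H →
      (∀ f ∈ FF, f.totalDegree ≤ d ∧ polyHeight f ≤ H) →
      (∀ (u : Fin r → Qbarˣ) (V : Fin r → Fin n → Qbar) (x : Fin n → Qbar),
        (∀ j, u j ∈ DivHull Γ) → (∀ a, x a = ∑ j, (u j : Qbar) * V j a) →
        (∀ f ∈ FF, aeval x f = 0) → NoLineThrough r FF x → AffBound C H u V x) ∧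
      (NoPuncturedLines FF →
        (∀ (u : Fin r → Qbarˣ) (V : Fin r → Fin n → Qbar) (x : Fin n → Qbar),
          (∀ j, u j ∈ DivHull Γ) → (∀ a, x a = ∑ j, (u j : Qbar) * V j a) →
          (∀ f ∈ FF, aeval x f = 0) → AffBound C H u V x) ∧
        ∀ B : ℝ, (∀ x : Fin n → Qbar, CompressibleAff FF Γ r C B x →
            hAff x ≤ 2 * C * (1 + H) + B) ∧
          ∀ (K : Type) [Field K] [NumberField K] (φ : K →+* Qbar),
            {y : Fin n → K | CompressibleAff FF Γ r C B (fun a => φ (y a))}.Finite) := by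
  obtain ⟨C, hC0, hC⟩ := aff_all n d r Γ hΓ
  refine ⟨C, hC0, fun FF H hH hFF => ⟨hC FF H hH hFF, fun hno => ?_⟩⟩
  have h2 : ∀ (u : Fin r → Qbarˣ) (V : Fin r → Fin n → Qbar) (x : Fin n → Qbar),
      (∀ j, u j ∈ DivHull Γ) → (∀ a, x a = ∑ j, (u j : Qbar) * V j a) →
      (∀ f ∈ FF, aeval x f = 0) → AffBound C H u V x := by
    intro u V x hu hx hz
    refine hC FF H hH hFF u V x hu hx hz ?_
    intro c l hc hcur t ht a
    rw [hno r c l hcur t ht a]
    exact hc a
  have h3 : ∀ (B : ℝ) (x : Fin n → Qbar), CompressibleAff FF Γ r C B x →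
      hAff x ≤ 2 * C * (1 + H) + B := by
    rintro B x ⟨hz, u, V, hu, hx, hV⟩
    have h4 := (h2 u V x hu hx hz).1
    nlinarith
  refine ⟨h2, fun B => ⟨h3 B, fun K _ _ φ => ?_⟩⟩
  exact (northcott_aff K φ (2 * C * (1 + H) + B)).subset fun y hy => h3 B _ hy

end Pool.Agent.Helper201_HF
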