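import Mathlib
import Pool.Agent.Helper201_HF.Aff3
import Pool.Agent.W235.RM.Final
import Pool.Agent.H533R3.SL.Gm

set_option autoImplicit false
set_option linter.unusedSectionVars false
set_option linter.unusedSimpArgs false

/-! # Entire curves and sums of elements of a group of finite rank -/

namespace Pool.Agent.Helper201_HF

open Finset NumberField Height Module Filter
open MvPolynomial hiding psum
open Pool.Agent.Helper259.AbsHt Pool.Agent.Y215.SK Pool.Agent.W235.RM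
open Pool.Agent.H159R3.Exp

variable {n N r : ℕ}

theorem laur_sum {k : Type} [Field k] (s : Finset (Fin r)) (c : Fin r → k) (l : Fin r → ℤ) :
    Laur (fun t : k => ∑ j ∈ s, c j * t ^ l j) := by
  classical
  induction s using Finset.induction_on with
  | empty => simpa using Laur.const (0 : k)
  | insert a s ha ih =>
    have h1 : (fun t : k => ∑ j ∈ insert a s, c j * t ^ l j) =
        fun t => c a * t ^ l a + ∑ j ∈ s, c j * t ^ l j := by
      funext t
      rw [Finset.sum_insert ha]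
    rw [h1]
    exact ((Laur.const (c a)).mul (Laur.zpow (l a))).add ih

theorem noLine_of_gm {K : Type} [Field K] [NumberField K] {ι κ : Type} (σ : K →+* ℂ)
    (τ : K →+* Qbar) (F : ι → MvPolynomial (Fin n) (𝓞 K)) (G : κ → MvPolynomial (Fin n) (𝓞 K))
    (h : GmCurvesIn σ F G) (x : Fin n → Qbar)
    (hx : ∃ l, eval₂ (τ.comp (algebraMap (𝓞 K) K)) x (G l) ≠ 0) (r : ℕ) :
    NoLineThrough r (Set.range fun i => map (τ.comp (algebraMap (𝓞 K) K)) (F i)) x := by
  intro c l hc hcur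
  by_contra hne
  push Not at hne
  obtain ⟨t0, ht0, a0, ha0⟩ := hne
  let _ : Algebra K ℂ := σ.toAlgebra
  let _ : Algebra K Qbar := τ.toAlgebra
  have h0 : Algebra.IsAlgebraic ℚ Qbar := AlgebraicClosure.isAlgebraic ℚ
  have : IsScalarTower ℚ K Qbar := IsScalarTower.of_algebraMap_eq' (Subsingleton.elim _ _)
  have : Algebra.IsAlgebraic K Qbar := Algebra.IsAlgebraic.tower_top (K := ℚ) K
  let θ : Qbar →ₐ[K] ℂ := IsAlgClosed.lift
  have hθ : θ.toRingHom.comp (τ.comp (algebraMap (𝓞 K) K)) = σ.comp (algebraMap (𝓞 K) K) := by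
    rw [← RingHom.comp_assoc]
    congr 1
    exact θ.comp_algebraMap
  obtain ⟨w, hw⟩ : ∃ w : ℂ → Fin n → ℂ,
    w = fun t a => ∑ j, θ.toRingHom (c j a) * t ^ l j := ⟨_, rfl⟩
  have hwL : ∀ a, Laur fun t => w t a := by
    intro a
    rw [hw]
    exact laur_sum Finset.univ (fun j => θ.toRingHom (c j a)) l
  have hwθ : ∀ t : Qbar, w (θ.toRingHom t) =
      fun a => θ.toRingHom (∑ j, c j a * t ^ l j) := by
    intro t
    rw [hw]
    funext a
    rw [map_sum]
    refine Finset.sum_congr rfl fun j _ => ?_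
    rw [map_mul, map_zpow₀]
  have hev : ∀ (P : MvPolynomial (Fin n) (𝓞 K)) (y : Fin n → Qbar),
      eval₂ (σ.comp (algebraMap (𝓞 K) K)) (fun a => θ.toRingHom (y a)) P =
      θ.toRingHom (eval₂ (τ.comp (algebraMap (𝓞 K) K)) y P) := by
    intro P y
    rw [MvPolynomial.hom_eval₂, hθ]
  have hinj : Function.Injective θ.toRingHom := θ.toRingHom.injective
  have hzero : ∀ i t, t ≠ 0 → eval₂ (σ.comp (algebraMap (𝓞 K) K)) (w t) (F i) = 0 := by
    intro i
    by_contra hcon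
    push Not at hcon
    have h1 := Laur.finite_zeros (Laur.eval₂ (σ.comp (algebraMap (𝓞 K) K)) w hwL (F i)) hcon
    have h2 : {m : ℕ | eval₂ (σ.comp (algebraMap (𝓞 K) K)) (w ((2 : ℂ) ^ m)) (F i) = 0} =
        Set.univ := by
      refine Set.eq_univ_of_forall fun m => ?_
      show eval₂ (σ.comp (algebraMap (𝓞 K) K)) (w ((2 : ℂ) ^ m)) (F i) = 0
      have h3 : ((2 : ℂ) ^ m) = θ.toRingHom ((2 : Qbar) ^ m) := by
        rw [map_pow, map_ofNat]
      rw [h3, hwθ, hev]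
      have h4 := hcur ((2 : Qbar) ^ m) (pow_ne_zero _ two_ne_zero) _ ⟨i, rfl⟩
      rw [aeval_def, MvPolynomial.eval₂_map] at h4
      have h5 : (algebraMap Qbar Qbar).comp (τ.comp (algebraMap (𝓞 K) K)) =
        τ.comp (algebraMap (𝓞 K) K) := rfl
      rw [h5] at h4
      rw [h4, map_zero]
    rw [h2] at h1
    exact Set.infinite_univ h1
  have hw1 : w 1 = fun a => θ.toRingHom (x a) := by
    have h1 := hwθ 1
    rw [map_one] at h1
    rw [h1]
    funext a
    rw [← hc a]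
    simp
  have h1 := h w hwL hzero ⟨θ.toRingHom t0, 1, by
    intro h3
    exact ht0 (hinj (by rw [h3, map_zero])), one_ne_zero, by
    intro h3
    rw [hwθ, hw1] at h3
    exact ha0 (hinj (congrFun h3 a0))⟩
  obtain ⟨l1, hl1⟩ := hx
  have h2 := h1 l1 1 one_ne_zero
  rw [hw1, hev] at h2
  exact hl1 (hinj (by rw [h2, map_zero]))

/-- The bounds, with the constants `C r Γ`, for the points `x = ∑ u_j V_j` of `V` (equations `F`)
outside `V'` (equations `G`), over the algebraic numbers. -/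
def UniformBounds {K : Type} [Field K] {ι κ : Type} (C : ℕ → Subgroup Qbarˣ → ℝ)
    (F : ι → MvPolynomial (Fin n) (𝓞 K)) (G : κ → MvPolynomial (Fin n) (𝓞 K)) : Prop :=
  ∀ (τ : K →+* Qbar) (H : ℝ), 0 ≤ H →
    (∀ i, polyHeight (map (τ.comp (algebraMap (𝓞 K) K)) (F i)) ≤ H) →
    ∀ (r : ℕ) (Γ : Subgroup Qbarˣ), Γ.FG →
      ∀ (u : Fin r → Qbarˣ) (V : Fin r → Fin n → Qbar) (x : Fin n → Qbar),
      (∀ j, u j ∈ DivHull Γ) → (∀ a, x a = ∑ j, (u j : Qbar) * V j a) →
      (∀ i, eval₂ (τ.comp (algebraMap (𝓞 K) K)) x (F i) = 0) →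
      (∃ l, eval₂ (τ.comp (algebraMap (𝓞 K) K)) x (G l) ≠ 0) → AffBound (C r Γ) H u V x

/-- The points of `V` outside `V'` over a number field `L` which are sums `∑ u_j V_j` with `r` terms,
`u_j` with a power in the finitely generated group `Γ` and `h(1 : V) ≤ B`, are finite in number. -/
def SumsFinite {K : Type} [Field K] {ι κ : Type}
    (F : ι → MvPolynomial (Fin n) (𝓞 K)) (G : κ → MvPolynomial (Fin n) (𝓞 K)) : Prop :=
  ∀ (τ : K →+* Qbar) (L : Type) [Field L] [NumberField L] (φ : L →+* Qbar) (r : ℕ)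
    (Γ : Subgroup Qbarˣ), Γ.FG → ∀ B : ℝ,
    {y : Fin n → L | (∀ i, eval₂ (τ.comp (algebraMap (𝓞 K) K)) (fun a => φ (y a)) (F i) = 0) ∧
      (∃ l, eval₂ (τ.comp (algebraMap (𝓞 K) K)) (fun a => φ (y a)) (G l) ≠ 0) ∧
      ∃ (u : Fin r → Qbarˣ) (V : Fin r → Fin n → Qbar), (∀ j, u j ∈ DivHull Γ) ∧
        (∀ a, φ (y a) = ∑ j, (u j : Qbar) * V j a) ∧ hVAff V ≤ B}.Finite

theorem sparse_of_sums {K : Type} [Field K] [NumberField K] {ι κ : Type}
    (F : ι → MvPolynomial (Fin n) (𝓞 K)) (G : κ → MvPolynomial (Fin n) (𝓞 K))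
    (h : SumsFinite F G) : SparseFinite F G := by
  classical
  intro L _ _ _ b r B hb
  obtain ⟨φ⟩ : Nonempty (L →+* Qbar) := ⟨(IsAlgClosed.lift : L →ₐ[ℚ] Qbar).toRingHom⟩
  have hbQ : (b : Qbar) ≠ 0 := by
    have : b ≠ 0 := by omega
    exact_mod_cast this
  -- the heights of the digit vectors are bounded
  have h1 : {a : L | IsIntegral ℤ a ∧ ∀ φ : L →+* ℂ, ‖φ a‖ ≤ B}.Finite :=
    Embeddings.finite_of_norm_le L ℂ B
  have h3 : {v : Fin r → Fin n → L | ∀ j a, v j a ∈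
      {a : L | IsIntegral ℤ a ∧ ∀ φ : L →+* ℂ, ‖φ a‖ ≤ B}}.Finite := by
    have h4 := Set.Finite.pi' (fun _ : Fin r => Set.Finite.pi' (fun _ : Fin n => h1))
    exact h4.subset fun v hv j => hv j
  obtain ⟨B', hB'⟩ := (h3.image (fun v => hVAff fun j a => φ (v j a))).bddAbove
  refine (h (φ.comp (algebraMap K L)) L φ r (Subgroup.closure {Units.mk0 (b : Qbar) hbQ})
    ⟨{Units.mk0 (b : Qbar) hbQ}, by simp⟩ B').subset ?_
  rintro x ⟨hF, ⟨l, hG⟩, m, v, hv, hx⟩
  have hcomp : (φ.comp (algebraMap K L)).comp (algebraMap (𝓞 K) K) =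
      φ.comp ((algebraMap K L).comp (algebraMap (𝓞 K) K)) := RingHom.comp_assoc _ _ _
  have hev : ∀ P : MvPolynomial (Fin n) (𝓞 K),
      eval₂ ((φ.comp (algebraMap K L)).comp (algebraMap (𝓞 K) K)) (fun a => φ (x a)) P =
      φ (eval₂ ((algebraMap K L).comp (algebraMap (𝓞 K) K)) x P) := by
    intro P
    rw [MvPolynomial.hom_eval₂, hcomp]
  refine ⟨fun i => by rw [hev, hF i, map_zero], ⟨l, by
      rw [hev]
      exact (map_ne_zero φ).2 hG⟩,
    fun j => Units.mk0 (b : Qbar) hbQ ^ (m j), fun j a => φ (algebraMap (𝓞 L) L (v j a)),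
    fun j => ⟨1, one_pos, ?_⟩, fun a => ?_, ?_⟩
  · rw [pow_one]
    exact Subgroup.zpow_mem _ (Subgroup.subset_closure (Set.mem_singleton _)) _
  · rw [hx a, map_sum]
    refine Finset.sum_congr rfl fun j _ => ?_
    rw [map_mul, map_zpow₀, map_natCast, Units.val_zpow_eq_zpow_val, Units.val_mk0]
  · refine hB' ⟨fun j a => algebraMap (𝓞 L) L (v j a), fun j a => ?_, rfl⟩
    exact ⟨(v j a).2, fun ψ => (norm_embedding_le_house _ ψ).trans (hv j a)⟩

theorem blv (n d : ℕ) : ∃ C : ℕ → Subgroup Qbarˣ → ℝ, (∀ r Γ, 0 < C r Γ) ∧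
    ∀ (K : Type) [Field K] [NumberField K] (σ : K →+* ℂ) (ι κ : Type) [Finite ι]
      (F : ι → MvPolynomial (Fin n) (𝓞 K)) (G : κ → MvPolynomial (Fin n) (𝓞 K)),
      (∀ i, (F i).totalDegree ≤ d) →
      List.TFAE [ExpCurvesIn σ F G, GmCurvesIn σ F G, UniformBounds C F G, SumsFinite F G] ∧
      (EntireCurvesIn σ F G → UniformBounds C F G) ∧
      (FinitelyManyIntegral F G → UniformBounds C F G) := by
  classical
  have hch : ∀ (r : ℕ) (Γ : Subgroup Qbarˣ), ∃ C : ℝ, 0 < C ∧ (Γ.FG →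
      ∀ (FF : Set (MvPolynomial (Fin n) Qbar)) (H : ℝ), 0 ≤ H →
      (∀ f ∈ FF, f.totalDegree ≤ d ∧ polyHeight f ≤ H) →
      ∀ (u : Fin r → Qbarˣ) (V : Fin r → Fin n → Qbar) (x : Fin n → Qbar),
      (∀ j, u j ∈ DivHull Γ) → (∀ a, x a = ∑ j, (u j : Qbar) * V j a) →
      (∀ f ∈ FF, aeval x f = 0) → NoLineThrough r FF x → AffBound C H u V x) := by
    intro r Γ
    by_cases hΓ : Γ.FG
    · obtain ⟨C, hC0, hC⟩ := aff_all n d r Γ hΓ
      exact ⟨C, hC0, fun _ => hC⟩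
    · exact ⟨1, one_pos, fun h => absurd h hΓ⟩
  choose C hC0 hC using hch
  refine ⟨C, hC0, fun K _ _ σ ι κ _ F G hF => ?_⟩
  have h23 : GmCurvesIn σ F G → UniformBounds C F G := by
    intro hgm τ H hH hPH r Γ hΓ u V x hu hx hz hG
    refine hC r Γ hΓ (Set.range fun i => map (τ.comp (algebraMap (𝓞 K) K)) (F i)) H hH ?_
      u V x hu hx ?_ (noLine_of_gm σ τ F G hgm x hG r)
    · rintro _ ⟨i, rfl⟩
      refine ⟨le_trans ?_ (hF i), hPH i⟩
      unfold totalDegree
      exact Finset.sup_mono (support_map_subset _ _)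
    · rintro _ ⟨i, rfl⟩
      rw [aeval_def, MvPolynomial.eval₂_map]
      exact hz i
  have h34 : UniformBounds C F G → SumsFinite F G := by
    intro hb τ L _ _ φ r Γ hΓ B
    obtain ⟨H, hH⟩ := Set.Finite.bddAbove
      (Set.finite_range fun i => polyHeight (map (τ.comp (algebraMap (𝓞 K) K)) (F i)))
    refine (northcott_aff L φ (C r Γ * (1 + B + |H|))).subset ?_
    rintro y ⟨h1, h2, u, V, hu, hx, hV⟩
    have h3 := (hb τ |H| (abs_nonneg H) (fun i => (hH ⟨i, rfl⟩).trans (le_abs_self H)) r Γ hΓ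
      u V (fun a => φ (y a)) hu hx h1 h2).1
    refine h3.trans (mul_le_mul_of_nonneg_left ?_ (hC0 r Γ).le)
    linarith
  have ht := tfae σ F G
  have h12 : ExpCurvesIn σ F G → GmCurvesIn σ F G := (ht.out 0 1).1
  have h31 : SparseFinite F G → ExpCurvesIn σ F G := (ht.out 2 0).1
  have h62 : RecurrenceFinite F G → GmCurvesIn σ F G := (ht.out 5 1).1
  refine ⟨?_, fun he => h23 (h12 (exp_of_entire σ F G he)),
    fun hi => h23 (h62 (rec_of_integral F G hi))⟩
  tfae_have 1 → 2 := h12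
  tfae_have 2 → 3 := h23
  tfae_have 3 → 4 := h34
  tfae_have 4 → 1 := fun h => h31 (sparse_of_sums F G h)
  tfae_finish

end Pool.Agent.Helper201_HF
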