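import Mathlib
import Pool.Agent.Helper201_HF.Uni
import Pool.Agent.TH409.SH.Fin2

set_option autoImplicit false
set_option linter.unusedSectionVars false
set_option linter.unusedSimpArgs false

/-! # Sums of elements of a group of finite rank on hyperbolic varieties -/

namespace Pool.Agent.Helper201_HF

open Finset NumberField Height Module Filter
open MvPolynomial hiding psum
open Pool.Agent.Helper259.AbsHt Pool.Agent.H533R3.SL Pool.Agent.Y215.SP Pool.Agent.Y215.SK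
open Pool.Agent.H458.Sp

variable {n N r : ℕ}

/-- hyperbolic varieties contain no rational curves -/
theorem noCurve_of_brody {k : Type} [Field k] [NumberField k] (σ : k →+* ℂ) (τ : k →+* Qbar)
    (FF : Set (MvPolynomial (Fin (n + 1)) k)) (hom : ∀ F ∈ FF, ∃ e, F.IsHomogeneous e)
    (hyp : BrodyHyperbolic ((MvPolynomial.map σ) '' FF)) (r : ℕ) (x : Fin (n + 1) → Qbar) :
    NoCurveThrough r ((MvPolynomial.map τ) '' FF) x := by
  intro c l hc hcur a b
  let _ : Algebra k ℂ := σ.toAlgebra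
  let _ : Algebra k Qbar := τ.toAlgebra
  have h0 : Algebra.IsAlgebraic ℚ Qbar := AlgebraicClosure.isAlgebraic ℚ
  have : IsScalarTower ℚ k Qbar := IsScalarTower.of_algebraMap_eq' (Subsingleton.elim _ _)
  have : Algebra.IsAlgebraic k Qbar := Algebra.IsAlgebraic.tower_top (K := ℚ) k
  let θ : Qbar →ₐ[k] ℂ := IsAlgClosed.lift
  have hθ : θ.toRingHom.comp τ = σ := θ.comp_algebraMap
  have hθinj : Function.Injective θ.toRingHom := θ.toRingHom.injective
  let q : Fin (n + 1) → Polynomial ℂ := fun a => (cur c l a).map θ.toRingHom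
  have hq1 : ∀ a, (q a).eval 1 = θ.toRingHom (x a) := by
    intro a
    have h1 : (cur c l a).eval 1 = x a := by
      rw [cur_eval_one]
      exact hc a
    rw [← h1]
    show (Polynomial.map θ.toRingHom (cur c l a)).eval 1 = _
    rw [← map_one θ.toRingHom, Polynomial.eval_map, Polynomial.eval₂_at_apply]
  have hq : ∀ G ∈ (MvPolynomial.map σ) '' FF, aeval q G = 0 := by
    rintro _ ⟨F, hF, rfl⟩
    have h1 : aeval (cur c l) (MvPolynomial.map τ F) = 0 := hcur _ ⟨F, hF, rfl⟩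
    have h2 := congrArg (Polynomial.mapRingHom θ.toRingHom) h1
    rw [map_zero, aeval_def, MvPolynomial.hom_eval₂, MvPolynomial.eval₂_map] at h2
    rw [aeval_def, MvPolynomial.eval₂_map, ← h2]
    congr 1
    rw [← hθ]
    ext z
    simp
  have h3 : q a * Polynomial.C (θ.toRingHom (x b)) = q b * Polynomial.C (θ.toRingHom (x a)) := by
    apply Polynomial.funext
    intro z
    have h4 := Pool.Agent.TH409.SH.no_curveC' _ (by
      rintro _ ⟨F, hF, rfl⟩
      obtain ⟨e, he⟩ := hom F hF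
      exact ⟨e, he.map _⟩) hyp q hq a b z 1
    rw [hq1, hq1] at h4
    rw [Polynomial.eval_mul, Polynomial.eval_mul, Polynomial.eval_C, Polynomial.eval_C]
    exact h4
  show cur c l a * Polynomial.C (x b) = cur c l b * Polynomial.C (x a)
  apply Polynomial.map_injective θ.toRingHom hθinj
  rw [Polynomial.map_mul, Polynomial.map_mul, Polynomial.map_C, Polynomial.map_C]
  exact h3

/-- the conclusion: `x = ∑ u_j V_j` is proportional to a partial sum whose multipliers have small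
height -/
def Bound (C H : ℝ) (u : Fin r → Qbarˣ) (V : Fin r → Fin (n + 1) → Qbar)
    (x : Fin (n + 1) → Qbar) : Prop :=
  absLogHeight x ≤ C * (1 + hV V + H) ∧
  ∃ (J : Finset (Fin r)) (c : Qbar), c ≠ 0 ∧ (∀ a, ∑ j ∈ J, (u j : Qbar) * V j a = c * x a) ∧
    absLogHeight (fun j : J => (u j : Qbar)) ≤ C * (1 + hV V + H)

/-- **All varieties.** -/
theorem bound_all (n d r : ℕ) (Γ : Subgroup Qbarˣ) (hΓ : Γ.FG) :
    ∃ C : ℝ, 0 < C ∧ ∀ (FF : Set (MvPolynomial (Fin (n + 1)) Qbar)) (H : ℝ), 0 ≤ H →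
      (∀ F ∈ FF, (∃ e, e ≤ d ∧ F.IsHomogeneous e) ∧ formHeight F ≤ H) →
      ∀ (u : Fin r → Qbarˣ) (V : Fin r → Fin (n + 1) → Qbar) (x : Fin (n + 1) → Qbar),
      (∀ j, u j ∈ DivHull Γ) → (∀ a, x a = ∑ j, (u j : Qbar) * V j a) → x ≠ 0 →
      (∀ F ∈ FF, aeval x F = 0) → NoCurveThrough r FF x → Bound C H u V x := by
  obtain ⟨C, hC0, hC⟩ := uni n d r Γ hΓ
  refine ⟨C + r + 1, by positivity, fun FF H hH hFF u V x hu hx hx0 hz hno => ?_⟩
  have hps : psum Finset.univ u V = x := by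
    funext a
    exact (hx a).symm
  have hV0 : 0 ≤ hV V := absLogHeight_nonneg _
  obtain ⟨J, hJ, hh⟩ := hC FF H hH hFF u V hu (by rw [hps]; exact hx0) (by rw [hps]; exact hz)
    (by rw [hps]; exact hno)
  obtain ⟨c, hc, hc2⟩ := good_prop J u V hJ (by rw [hps]; exact hx0)
  rw [hps] at hc2
  have hr : (0 : ℝ) ≤ r := Nat.cast_nonneg r
  have h5 : 0 ≤ (r : ℝ) * (hV V + H) := mul_nonneg hr (by linarith)
  refine ⟨?_, J, c, hc, fun a => congrFun hc2 a, hh.trans ?_⟩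
  · rw [← absLogHeight_smul _ hc, ← hc2]
    have h6 := psum_height J u V
    nlinarith
  · nlinarith

/-- `x` is a vector of homogeneous coordinates of a point of the variety `FF`, and there is a
representation `x = ∑ u_j V_j` with `r` terms, `u_j` with a power in `Γ` and
`2 C h(V) ≤ h(x) + B` -/
def Compressible {k : Type} [Field k] (τ : k →+* Qbar) (FF : Set (MvPolynomial (Fin (n + 1)) k))
    (Γ : Subgroup Qbarˣ) (r : ℕ) (C B : ℝ) (x : Fin (n + 1) → Qbar) : Prop :=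
  x ≠ 0 ∧ (∀ F ∈ FF, eval₂ τ x F = 0) ∧
    ∃ (u : Fin r → Qbarˣ) (V : Fin r → Fin (n + 1) → Qbar), (∀ j, u j ∈ DivHull Γ) ∧
      (∀ a, x a = ∑ j, (u j : Qbar) * V j a) ∧ 2 * C * hV V ≤ absLogHeight x + B

/-- the points of projective space over the number field `K` (with an embedding `φ` in `Qbar`) with
such homogeneous coordinates -/
def compressiblePoints {k K : Type} [Field k] [Field K] (τ : k →+* Qbar) (φ : K →+* Qbar)
    (FF : Set (MvPolynomial (Fin (n + 1)) k)) (Γ : Subgroup Qbarˣ) (r : ℕ) (C B : ℝ) :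
    Set (Projectivization K (Fin (n + 1) → K)) :=
  {p | ∃ (y : Fin (n + 1) → K) (hy : y ≠ 0), p = Projectivization.mk K y hy ∧
    Compressible τ FF Γ r C B (fun a => φ (y a))}

theorem main (n d r : ℕ) (Γ : Subgroup Qbarˣ) (hΓ : Γ.FG) :
    ∃ C : ℝ, 0 < C ∧
    (∀ (FF : Set (MvPolynomial (Fin (n + 1)) Qbar)) (H : ℝ), 0 ≤ H →
      (∀ F ∈ FF, (∃ e, e ≤ d ∧ F.IsHomogeneous e) ∧ formHeight F ≤ H) →
      ∀ (u : Fin r → Qbarˣ) (V : Fin r → Fin (n + 1) → Qbar) (x : Fin (n + 1) → Qbar),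
      (∀ j, u j ∈ DivHull Γ) → (∀ a, x a = ∑ j, (u j : Qbar) * V j a) → x ≠ 0 →
      (∀ F ∈ FF, aeval x F = 0) → NoCurveThrough r FF x → Bound C H u V x) ∧
    ∀ (k : Type) [Field k] [NumberField k] (σ : k →+* ℂ) (τ : k →+* Qbar)
      (FF : Set (MvPolynomial (Fin (n + 1)) k)) (H : ℝ), 0 ≤ H →
      (∀ F ∈ FF, (∃ e, e ≤ d ∧ F.IsHomogeneous e) ∧ formHeight (map τ F) ≤ H) →
      BrodyHyperbolic ((map σ) '' FF) →
      (∀ (u : Fin r → Qbarˣ) (V : Fin r → Fin (n + 1) → Qbar) (x : Fin (n + 1) → Qbar),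
        (∀ j, u j ∈ DivHull Γ) → (∀ a, x a = ∑ j, (u j : Qbar) * V j a) → x ≠ 0 →
        (∀ F ∈ FF, eval₂ τ x F = 0) → Bound C H u V x) ∧
      ∀ B : ℝ, (∀ x : Fin (n + 1) → Qbar, Compressible τ FF Γ r C B x →
          absLogHeight x ≤ 2 * C * (1 + H) + B) ∧
        ∀ (K : Type) [Field K] [NumberField K] (φ : K →+* Qbar),
          (compressiblePoints τ φ FF Γ r C B).Finite := by
  obtain ⟨C, hC0, hC⟩ := bound_all n d r Γ hΓ
  refine ⟨C, hC0, hC, fun k _ _ σ τ FF H hH hFF hyp => ?_⟩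
  have h2 : ∀ (u : Fin r → Qbarˣ) (V : Fin r → Fin (n + 1) → Qbar) (x : Fin (n + 1) → Qbar),
        (∀ j, u j ∈ DivHull Γ) → (∀ a, x a = ∑ j, (u j : Qbar) * V j a) → x ≠ 0 →
        (∀ F ∈ FF, eval₂ τ x F = 0) → Bound C H u V x := by
    intro u V x hu hx hx0 hz
    refine hC ((map τ) '' FF) H hH ?_ u V x hu hx hx0 ?_ ?_
    · rintro _ ⟨F, hF, rfl⟩
      obtain ⟨⟨e, he, he2⟩, h3⟩ := hFF F hF
      exact ⟨⟨e, he, he2.map _⟩, h3⟩
    · rintro _ ⟨F, hF, rfl⟩
      rw [aeval_def, MvPolynomial.eval₂_map]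
      exact hz F hF
    · exact noCurve_of_brody σ τ FF (fun F hF => by
        obtain ⟨⟨e, _, he2⟩, _⟩ := hFF F hF
        exact ⟨e, he2⟩) hyp r x
  have h3 : ∀ (B : ℝ) (x : Fin (n + 1) → Qbar), Compressible τ FF Γ r C B x →
      absLogHeight x ≤ 2 * C * (1 + H) + B := by
    rintro B x ⟨hx0, hz, u, V, hu, hx, hV⟩
    have h4 := (h2 u V x hu hx hx0 hz).1
    nlinarith
  refine ⟨h2, fun B => ⟨h3 B, fun K _ _ φ => ?_⟩⟩
  refine (northcott_proj K φ (2 * C * (1 + H) + B)).subset ?_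
  rintro p ⟨y, hy, rfl, hc⟩
  exact ⟨y, hy, rfl, h3 B _ hc⟩

end Pool.Agent.Helper201_HF
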