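import Mathlib
import Pool.Agent.Helper201_HF.Hyp
import Pool.Agent.H533R3.SL.Asm

set_option autoImplicit false
set_option linter.unusedSectionVars false
set_option linter.unusedSimpArgs false

/-! # Sums of elements of a group of finite rank on varieties which are not uniruled -/

namespace Pool.Agent.Helper201_HF

open Finset NumberField Height Module Filter
open MvPolynomial hiding psum
open Pool.Agent.Helper259.AbsHt Pool.Agent.H533R3.SL Pool.Agent.Y215.SP Pool.Agent.Y215.SK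
open Pool.Agent.H458.Sp

variable {n N r : ℕ}

/-- `x` is a vector of homogeneous coordinates of a point of the variety `P`, off `G = 0`, and there
is a representation `x = ∑ u_j V_j` with `r` terms, `u_j` with a power in `Γ` and
`2 C h(V) ≤ h(x) + B` -/
def CompressibleOff {k : Type} [Field k] (τ : k →+* Qbar) (P : Fin N → MvPolynomial (Fin (n + 1)) k)
    (G : MvPolynomial (Fin (n + 1)) k) (Γ : Subgroup Qbarˣ) (r : ℕ) (C B : ℝ)
    (x : Fin (n + 1) → Qbar) : Prop :=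
  x ≠ 0 ∧ (∀ i, eval₂ τ x (P i) = 0) ∧ eval₂ τ x G ≠ 0 ∧
    ∃ (u : Fin r → Qbarˣ) (V : Fin r → Fin (n + 1) → Qbar), (∀ j, u j ∈ DivHull Γ) ∧
      (∀ a, x a = ∑ j, (u j : Qbar) * V j a) ∧ 2 * C * hV V ≤ absLogHeight x + B

theorem strong (n d r : ℕ) :
    ∃ C : Subgroup Qbarˣ → ℝ, (∀ Γ, 0 < C Γ) ∧
    ∀ (k : Type) [Field k] [NumberField k] (N : ℕ) (P : Fin N → MvPolynomial (Fin (n + 1)) k),
      (∀ i, ∃ e, e ≤ d ∧ (P i).IsHomogeneous e) → (Ideal.span (Set.range P)).IsPrime →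
      ¬ Uniruled (Ideal.span (Set.range P)) →
      ∃ G : MvPolynomial (Fin (n + 1)) k, (∃ e, G.IsHomogeneous e) ∧
        G ∉ Ideal.span (Set.range P) ∧
        ∀ (τ : k →+* Qbar) (H : ℝ), 0 ≤ H → (∀ i, formHeight (map τ (P i)) ≤ H) →
          ∀ Γ : Subgroup Qbarˣ, Γ.FG →
            (∀ (u : Fin r → Qbarˣ) (V : Fin r → Fin (n + 1) → Qbar) (x : Fin (n + 1) → Qbar),
              (∀ j, u j ∈ DivHull Γ) → (∀ a, x a = ∑ j, (u j : Qbar) * V j a) → x ≠ 0 →
              (∀ i, eval₂ τ x (P i) = 0) → eval₂ τ x G ≠ 0 → Bound (C Γ) H u V x) ∧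
            ∀ B : ℝ, (∀ x : Fin (n + 1) → Qbar, CompressibleOff τ P G Γ r (C Γ) B x →
                absLogHeight x ≤ 2 * C Γ * (1 + H) + B) ∧
              ∀ (K : Type) [Field K] [NumberField K] (φ : K →+* Qbar),
                {p : Projectivization K (Fin (n + 1) → K) | ∃ (y : Fin (n + 1) → K) (hy : y ≠ 0),
                  p = Projectivization.mk K y hy ∧
                  CompressibleOff τ P G Γ r (C Γ) B (fun a => φ (y a))}.Finite := by
  classical
  have hch : ∀ Γ : Subgroup Qbarˣ, ∃ C : ℝ, 0 < C ∧ (Γ.FG →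
      ∀ (FF : Set (MvPolynomial (Fin (n + 1)) Qbar)) (H : ℝ), 0 ≤ H →
      (∀ F ∈ FF, (∃ e, e ≤ d ∧ F.IsHomogeneous e) ∧ formHeight F ≤ H) →
      ∀ (u : Fin r → Qbarˣ) (V : Fin r → Fin (n + 1) → Qbar) (x : Fin (n + 1) → Qbar),
      (∀ j, u j ∈ DivHull Γ) → (∀ a, x a = ∑ j, (u j : Qbar) * V j a) → x ≠ 0 →
      (∀ F ∈ FF, aeval x F = 0) → NoCurveThrough r FF x → Bound C H u V x) := by
    intro Γ
    by_cases hΓ : Γ.FG
    · obtain ⟨C, hC0, hC⟩ := bound_all n d r Γ hΓ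
      exact ⟨C, hC0, fun _ => hC⟩
    · exact ⟨1, one_pos, fun h => absurd h hΓ⟩
  choose C hC0 hC using hch
  refine ⟨C, hC0, fun k _ _ N P hP hprime hnu => ?_⟩
  obtain ⟨G, h1, h2, h3⟩ := exists_hyper (Set.range P) hprime hnu (d + 1) (by omega) (by
    rintro _ ⟨i, rfl⟩
    obtain ⟨e, he, he2⟩ := hP i
    exact ⟨e, by omega, he2⟩) r
  refine ⟨G, h1, h2, fun τ H hH hPH Γ hΓ => ?_⟩
  have h4 : ∀ (u : Fin r → Qbarˣ) (V : Fin r → Fin (n + 1) → Qbar) (x : Fin (n + 1) → Qbar),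
      (∀ j, u j ∈ DivHull Γ) → (∀ a, x a = ∑ j, (u j : Qbar) * V j a) → x ≠ 0 →
      (∀ i, eval₂ τ x (P i) = 0) → eval₂ τ x G ≠ 0 → Bound (C Γ) H u V x := by
    intro u V x hu hx hx0 hz hG
    refine hC Γ hΓ ((map τ) '' (Set.range P)) H hH ?_ u V x hu hx hx0 ?_ ?_
    · rintro _ ⟨_, ⟨i, rfl⟩, rfl⟩
      obtain ⟨e, he, he2⟩ := hP i
      exact ⟨⟨e, he, he2.map _⟩, hPH i⟩
    · rintro _ ⟨_, ⟨i, rfl⟩, rfl⟩
      rw [aeval_def, MvPolynomial.eval₂_map]
      exact hz i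
    · intro c l hc hcur a b
      let _ : Algebra k Qbar := τ.toAlgebra
      by_contra hne
      apply hG
      have h5 := h3 Qbar c l (by
        intro F hF
        have h6 : aeval (cur c l) (MvPolynomial.map τ F) = 0 := hcur _ ⟨F, hF, rfl⟩
        rw [aeval_def, MvPolynomial.eval₂_map] at h6
        rw [aeval_def]
        exact h6) ⟨a, b, by
          intro h7
          apply hne
          rw [hc a, hc b] at h7
          exact h7⟩
      have h8 : (fun i => ∑ j, c j i) = x := funext hc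
      rw [h8, aeval_def] at h5
      exact h5
  have h5 : ∀ (B : ℝ) (x : Fin (n + 1) → Qbar), CompressibleOff τ P G Γ r (C Γ) B x →
      absLogHeight x ≤ 2 * C Γ * (1 + H) + B := by
    rintro B x ⟨hx0, hz, hG, u, V, hu, hx, hV⟩
    have h6 := (h4 u V x hu hx hx0 hz hG).1
    nlinarith [hC0 Γ]
  refine ⟨h4, fun B => ⟨h5 B, fun K _ _ φ => ?_⟩⟩
  refine (northcott_proj K φ (2 * C Γ * (1 + H) + B)).subset ?_
  rintro p ⟨y, hy, rfl, hc⟩
  exact ⟨y, hy, rfl, h5 B _ hc⟩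

end Pool.Agent.Helper201_HF
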